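import Pool.Agent.Lib_helper65.TV.Defs

set_option autoImplicit false

namespace Pool.Agent.TV

theorem bw_zero : bw 0 = 0 := by simp [bw]

theorem bw_two_mul_add (a b : ℕ) (hb : b < 2) : bw (2 * a + b) = bw a + b := by
  rcases Nat.eq_zero_or_pos (2 * a + b) with h | h
  · have h1 : a = 0 := by omega
    have h2 : b = 0 := by omega
    subst h1
    subst h2
    simp [bw]
  · unfold bw
    rw [Nat.digits_def' (by norm_num) h, List.sum_cons]
    have h1 : (2 * a + b) % 2 = b := by omega
    have h2 : (2 * a + b) / 2 = a := by omega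
    rw [h1, h2]
    omega

theorem bw_two_pow_mul (k a : ℕ) : bw (2 ^ k * a) = bw a := by
  induction k with
  | zero => simp
  | succ k ih =>
    have h : 2 ^ (k + 1) * a = 2 * (2 ^ k * a) + 0 := by ring
    rw [h, bw_two_mul_add _ _ (by norm_num), ih, add_zero]

theorem bw_low_high (k a b : ℕ) (ha : a < 2 ^ k) : bw (a + 2 ^ k * b) = bw a + bw b := by
  induction k generalizing a with
  | zero =>
    have h : a = 0 := by simpa using ha
    subst h
    simp [bw_zero]
  | succ k ih =>
    have h1 : a / 2 < 2 ^ k := by rw [pow_succ] at ha; omega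
    have h2 : a + 2 ^ (k + 1) * b = 2 * (a / 2 + 2 ^ k * b) + a % 2 := by
      have h3 : a = 2 * (a / 2) + a % 2 := by omega
      have h4 : 2 ^ (k + 1) * b = 2 * (2 ^ k * b) := by ring
      rw [h4]
      omega
    have h5 : bw a = bw (a / 2) + a % 2 := by
      conv_lhs => rw [show a = 2 * (a / 2) + a % 2 by omega]
      rw [bw_two_mul_add _ _ (by omega)]
    rw [h2, bw_two_mul_add _ _ (by omega), ih _ h1, h5]
    omega

theorem bw_compl (k a : ℕ) (ha : a < 2 ^ k) : bw a + bw (2 ^ k - 1 - a) = k := by
  induction k generalizing a with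
  | zero =>
    have h : a = 0 := by simpa using ha
    subst h
    simp [bw_zero]
  | succ k ih =>
    have h1 : a / 2 < 2 ^ k := by rw [pow_succ] at ha; omega
    have h2 : 2 ^ (k + 1) - 1 - a = 2 * (2 ^ k - 1 - a / 2) + (1 - a % 2) := by
      rw [pow_succ] at ha ⊢
      omega
    have h5 : bw a = bw (a / 2) + a % 2 := by
      conv_lhs => rw [show a = 2 * (a / 2) + a % 2 by omega]
      rw [bw_two_mul_add _ _ (by omega)]
    have h6 := ih _ h1
    rw [h2, bw_two_mul_add _ _ (by omega), h5]
    omega

end Pool.Agent.TV
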