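import Pool.Agent.Lib_helper65.TV.Defs
import Pool.Agent.Lib_helper65.TVC.BWA

set_option autoImplicit false

/-!
# AU: the automaton
-/

namespace Pool.Agent.TV

theorem AU_bit (a : ℕ) (ha : a < 2) : bw a = a := by
  have := bw_two_mul_add 0 a ha
  simpa [bw_zero] using this

theorem AU_app (p J a : ℕ) (hJ : J < 2 ^ p) (ha : a < 2) : bw (J + 2 ^ p * a) = bw J + a := by
  rw [bw_low_high p J a hJ, AU_bit a ha]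

theorem AU_lt (p J a : ℕ) (hJ : J < 2 ^ p) (ha : a < 2) : J + 2 ^ p * a < 2 ^ (p + 1) := by
  rw [pow_succ]
  have : a = 0 ∨ a = 1 := by omega
  rcases this with rfl | rfl <;> simp <;> omega

theorem AU_lin1 (p J J' Z w k a a' z b k' : ℕ) (E : J + J' + Z + w + 1 = 2 ^ p + 2 ^ p * k)
    (e : a + a' + z + k + b = 1 + 2 * k') :
    J + 2 ^ p * a + (J' + 2 ^ p * a') + (Z + 2 ^ p * z) + (w + 2 ^ p * b) + 1 =
      2 ^ (p + 1) + 2 ^ (p + 1) * k' := by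
  have h1 : (J : ℤ) + J' + Z + w + 1 = 2 ^ p + 2 ^ p * k := by exact_mod_cast E
  have h2 : (a : ℤ) + a' + z + k + b = 1 + 2 * k' := by exact_mod_cast e
  have h3 : (J : ℤ) + 2 ^ p * a + (J' + 2 ^ p * a') + (Z + 2 ^ p * z) + (w + 2 ^ p * b) + 1 =
      2 ^ (p + 1) + 2 ^ (p + 1) * k' := by
    rw [pow_succ]; linear_combination h1 + 2 ^ p * h2
  exact_mod_cast h3

theorem AU_lin0 (p J J' Z w k a a' z b k' : ℕ) (E : J + J' + Z = w + 2 ^ p * k)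
    (e : a + a' + z + k = b + 2 * k') :
    J + 2 ^ p * a + (J' + 2 ^ p * a') + (Z + 2 ^ p * z) =
      w + 2 ^ p * b + 2 ^ (p + 1) * k' := by
  have h1 : (J : ℤ) + J' + Z = w + 2 ^ p * k := by exact_mod_cast E
  have h2 : (a : ℤ) + a' + z + k = b + 2 * k' := by exact_mod_cast e
  have h3 : (J : ℤ) + 2 ^ p * a + (J' + 2 ^ p * a') + (Z + 2 ^ p * z) =
      w + 2 ^ p * b + 2 ^ (p + 1) * k' := by
    rw [pow_succ]; linear_combination h1 + 2 ^ p * h2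
  exact_mod_cast h3

/-- partial solutions for the low `p` bits, with carries `k_i` and defect `dl` -/
def AU_R (p w0 w1 w2 dl k0 k1 k2 k3 k4 k5 : ℕ) : Prop :=
  ∃ J0 J1 J2 J3 J4 J5 Z0 Z1 Z2 Z3 Z4 Z5 : ℕ, ∃ D : ℤ,
    (J0 < 2 ^ p ∧ J1 < 2 ^ p ∧ J2 < 2 ^ p ∧ J3 < 2 ^ p ∧ J4 < 2 ^ p ∧ J5 < 2 ^ p) ∧
    (Z0 < 2 ^ p ∧ Z1 < 2 ^ p ∧ Z2 < 2 ^ p ∧ Z3 < 2 ^ p ∧ Z4 < 2 ^ p ∧ Z5 < 2 ^ p) ∧
    J0 + J4 + Z0 + w0 + 1 = 2 ^ p + 2 ^ p * k0 ∧ J1 + J5 + Z1 + w1 + 1 = 2 ^ p + 2 ^ p * k1 ∧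
    J2 + J0 + Z2 + w2 + 1 = 2 ^ p + 2 ^ p * k2 ∧
    J3 + J1 + Z3 = w0 + 2 ^ p * k3 ∧ J4 + J2 + Z4 = w1 + 2 ^ p * k4 ∧
    J5 + J3 + Z5 = w2 + 2 ^ p * k5 ∧
    (J2 : ℤ) - J5 = D ∧ (J4 : ℤ) - J1 = D ∧ (J0 : ℤ) - J3 = D + 1 - 2 ^ p * dl ∧
    (bw J0 + bw J1 + bw J2 + bw J3 + bw J4 + bw J5) +
      (bw Z0 + bw Z1 + bw Z2 + bw Z3 + bw Z4 + bw Z5) ≤ 3 * p + (k0 + k1 + k2 + k3 + k4 + k5)

theorem AU_step (p w0 w1 w2 dl k0 k1 k2 k3 k4 k5 : ℕ)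
    (h : AU_R p w0 w1 w2 dl k0 k1 k2 k3 k4 k5)
    (b0 b1 b2 a0 a1 a2 a3 a4 a5 z0 z1 z2 z3 z4 z5 dl' k0' k1' k2' k3' k4' k5' : ℕ)
    (hb : b0 < 2 ∧ b1 < 2 ∧ b2 < 2)
    (ha : a0 < 2 ∧ a1 < 2 ∧ a2 < 2 ∧ a3 < 2 ∧ a4 < 2 ∧ a5 < 2)
    (hz : z0 < 2 ∧ z1 < 2 ∧ z2 < 2 ∧ z3 < 2 ∧ z4 < 2 ∧ z5 < 2)
    (e0 : a0 + a4 + z0 + k0 + b0 = 1 + 2 * k0') (e1 : a1 + a5 + z1 + k1 + b1 = 1 + 2 * k1')
    (e2 : a2 + a0 + z2 + k2 + b2 = 1 + 2 * k2')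
    (e3 : a3 + a1 + z3 + k3 = b0 + 2 * k3') (e4 : a4 + a2 + z4 + k4 = b1 + 2 * k4')
    (e5 : a5 + a3 + z5 + k5 = b2 + 2 * k5')
    (f1 : a2 + a1 = a4 + a5) (f2 : a0 + a5 + 2 * dl' = a2 + a3 + dl)
    (hk : k0' + k1' + k2' + k3' + k4' + k5' ≤ a0 + a1 + a2 + a3 + a4 + a5) :
    AU_R (p + 1) (w0 + 2 ^ p * b0) (w1 + 2 ^ p * b1) (w2 + 2 ^ p * b2) dl'
      k0' k1' k2' k3' k4' k5' := by
  obtain ⟨J0, J1, J2, J3, J4, J5, Z0, Z1, Z2, Z3, Z4, Z5, D, ⟨j0, j1, j2, j3, j4, j5⟩,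
    ⟨y0, y1, y2, y3, y4, y5⟩, E0, E1, E2, E3, E4, E5, F1, F2, F3, hw⟩ := h
  obtain ⟨ha0, ha1, ha2, ha3, ha4, ha5⟩ := ha
  obtain ⟨hz0, hz1, hz2, hz3, hz4, hz5⟩ := hz
  refine ⟨J0 + 2 ^ p * a0, J1 + 2 ^ p * a1, J2 + 2 ^ p * a2, J3 + 2 ^ p * a3, J4 + 2 ^ p * a4,
    J5 + 2 ^ p * a5, Z0 + 2 ^ p * z0, Z1 + 2 ^ p * z1, Z2 + 2 ^ p * z2, Z3 + 2 ^ p * z3,
    Z4 + 2 ^ p * z4, Z5 + 2 ^ p * z5, D + 2 ^ p * ((a2 : ℤ) - a5),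
    ⟨AU_lt _ _ _ j0 ha0, AU_lt _ _ _ j1 ha1, AU_lt _ _ _ j2 ha2, AU_lt _ _ _ j3 ha3,
      AU_lt _ _ _ j4 ha4, AU_lt _ _ _ j5 ha5⟩,
    ⟨AU_lt _ _ _ y0 hz0, AU_lt _ _ _ y1 hz1, AU_lt _ _ _ y2 hz2, AU_lt _ _ _ y3 hz3,
      AU_lt _ _ _ y4 hz4, AU_lt _ _ _ y5 hz5⟩, ?_, ?_, ?_, ?_, ?_, ?_, ?_, ?_, ?_, ?_⟩
  · exact AU_lin1 p _ _ _ _ _ _ _ _ _ _ E0 e0
  · exact AU_lin1 p _ _ _ _ _ _ _ _ _ _ E1 e1
  · exact AU_lin1 p _ _ _ _ _ _ _ _ _ _ E2 e2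
  · exact AU_lin0 p _ _ _ _ _ _ _ _ _ _ E3 e3
  · exact AU_lin0 p _ _ _ _ _ _ _ _ _ _ E4 e4
  · exact AU_lin0 p _ _ _ _ _ _ _ _ _ _ E5 e5
  · push_cast; linear_combination F1
  · have f1' : (a2 : ℤ) + a1 = a4 + a5 := by exact_mod_cast f1
    push_cast; linear_combination F2 - 2 ^ p * f1'
  · have f2' : (a0 : ℤ) + a5 + 2 * dl' = a2 + a3 + dl := by exact_mod_cast f2
    push_cast; rw [pow_succ]; linear_combination F3 + 2 ^ p * f2'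
  · rw [AU_app _ _ _ j0 ha0, AU_app _ _ _ j1 ha1, AU_app _ _ _ j2 ha2, AU_app _ _ _ j3 ha3,
      AU_app _ _ _ j4 ha4, AU_app _ _ _ j5 ha5, AU_app _ _ _ y0 hz0, AU_app _ _ _ y1 hz1,
      AU_app _ _ _ y2 hz2, AU_app _ _ _ y3 hz3, AU_app _ _ _ y4 hz4, AU_app _ _ _ y5 hz5]
    omega

theorem AU_start : AU_R 0 0 0 0 1 0 0 0 0 0 0 := by
  refine ⟨0, 0, 0, 0, 0, 0, 0, 0, 0, 0, 0, 0, 0, ?_⟩
  simp [bw_zero]

/-- the state `(dl, kappa)` as a predicate; `m` = bit mask of `kappa` -/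
def AU_S (p w0 w1 w2 dl m : ℕ) : Prop :=
  AU_R p w0 w1 w2 dl (m % 2) (m / 2 % 2) (m / 4 % 2) (m / 8 % 2) (m / 16 % 2) (m / 32 % 2)

theorem AU_startS : AU_S 0 0 0 0 1 0 := AU_start

/-- the numeric side conditions of a transition -/
abbrev AU_ok (dl m b a z dl' m' : ℕ) : Prop :=
  (a % 2 + a / 16 % 2 + z % 2 + m % 2 + b % 2 = 1 + 2 * (m' % 2)) ∧
  (a / 2 % 2 + a / 32 % 2 + z / 2 % 2 + m / 2 % 2 + b / 2 % 2 = 1 + 2 * (m' / 2 % 2)) ∧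
  (a / 4 % 2 + a % 2 + z / 4 % 2 + m / 4 % 2 + b / 4 % 2 = 1 + 2 * (m' / 4 % 2)) ∧
  (a / 8 % 2 + a / 2 % 2 + z / 8 % 2 + m / 8 % 2 = b % 2 + 2 * (m' / 8 % 2)) ∧
  (a / 16 % 2 + a / 4 % 2 + z / 16 % 2 + m / 16 % 2 = b / 2 % 2 + 2 * (m' / 16 % 2)) ∧
  (a / 32 % 2 + a / 8 % 2 + z / 32 % 2 + m / 32 % 2 = b / 4 % 2 + 2 * (m' / 32 % 2)) ∧
  (a / 4 % 2 + a / 2 % 2 = a / 16 % 2 + a / 32 % 2) ∧
  (a % 2 + a / 32 % 2 + 2 * dl' = a / 4 % 2 + a / 8 % 2 + dl) ∧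
  (m' % 2 + m' / 2 % 2 + m' / 4 % 2 + m' / 8 % 2 + m' / 16 % 2 + m' / 32 % 2 ≤
      a % 2 + a / 2 % 2 + a / 4 % 2 + a / 8 % 2 + a / 16 % 2 + a / 32 % 2)

/-- transition with masks: `a` = new bits of `j`, `z` = new bits of `z`, `b` = new bits of `w` -/
theorem AU_tr (p w0 w1 w2 dl m : ℕ) (h : AU_S p w0 w1 w2 dl m) (b a z dl' m' : ℕ)
    (hok : AU_ok dl m b a z dl' m') :
    AU_S (p + 1) (w0 + 2 ^ p * (b % 2)) (w1 + 2 ^ p * (b / 2 % 2)) (w2 + 2 ^ p * (b / 4 % 2))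
      dl' m' := by
  obtain ⟨e0, e1, e2, e3, e4, e5, f1, f2, hk⟩ := hok
  refine AU_step p w0 w1 w2 dl _ _ _ _ _ _ h (b % 2) (b / 2 % 2) (b / 4 % 2) (a % 2) (a / 2 % 2)
    (a / 4 % 2) (a / 8 % 2) (a / 16 % 2) (a / 32 % 2) (z % 2) (z / 2 % 2) (z / 4 % 2) (z / 8 % 2)
    (z / 16 % 2) (z / 32 % 2) dl' _ _ _ _ _ _ ?_ ?_ ?_ e0 e1 e2 e3 e4 e5 f1 f2 hk
  · refine ⟨?_, ?_, ?_⟩ <;> omega
  · refine ⟨?_, ?_, ?_, ?_, ?_, ?_⟩ <;> omega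
  · refine ⟨?_, ?_, ?_, ?_, ?_, ?_⟩ <;> omega

/-- the invariant -/
def AU_Inv (c0 c p w0 w1 w2 : ℕ) : Prop :=
  (c0 = 0 ∧ c = 0 ∧ (p = 0 ∨ AU_S p w0 w1 w2 0 0 ∨ AU_S p w0 w1 w2 0 10 ∨ AU_S p w0 w1 w2 0 34 ∨
    AU_S p w0 w1 w2 0 40)) ∨
  (c0 = 0 ∧ c = 1 ∧ (AU_S p w0 w1 w2 0 0 ∨ (AU_S p w0 w1 w2 1 0 ∧ AU_S p w0 w1 w2 0 2 ∧
    w0 + 1 = 2 ^ p ∧ w1 + 2 = 2 ^ p ∧ w2 + 1 = 2 ^ p))) ∨
  (c0 = 1 ∧ c = 1 ∧ (p = 0 ∨ AU_S p w0 w1 w2 0 0 ∨ AU_S p w0 w1 w2 0 1 ∨ AU_S p w0 w1 w2 0 4 ∨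
    AU_S p w0 w1 w2 0 17 ∨ AU_S p w0 w1 w2 0 20 ∨ AU_S p w0 w1 w2 0 5 ∨
    (AU_S p w0 w1 w2 1 0 ∧ AU_S p w0 w1 w2 0 2))) ∨
  (c0 = 1 ∧ c = 0 ∧ AU_S p w0 w1 w2 0 0)

theorem AU_n_00_p (b c2 : ℕ) (hb : b < 8)
    (hc : 0 + b % 2 + b / 4 % 2 = b / 2 % 2 + 2 * c2) :
    AU_Inv 0 c2 (0 + 1) (0 + 2 ^ 0 * (b % 2)) (0 + 2 ^ 0 * (b / 2 % 2)) (0 + 2 ^ 0 * (b / 4 % 2)) := by
  interval_cases b
  · -- c0=0 c=0 state p0 b=0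
    obtain rfl : c2 = 0 := by omega
    exact Or.inl (⟨rfl, rfl, Or.inr (Or.inl (AU_tr _ _ _ _ _ _ AU_startS 0 1 2 0 0 (by decide)))⟩)
  · -- c0=0 c=0 state p0 b=1
    omega
  · -- c0=0 c=0 state p0 b=2
    omega
  · -- c0=0 c=0 state p0 b=3
    obtain rfl : c2 = 0 := by omega
    exact Or.inl (⟨rfl, rfl, Or.inr (Or.inr (Or.inr (Or.inl (AU_tr _ _ _ _ _ _ AU_startS 3 34 52 0 34 (by decide)))))⟩)
  · -- c0=0 c=0 state p0 b=4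
    omega
  · -- c0=0 c=0 state p0 b=5
    obtain rfl : c2 = 1 := by omega
    exact Or.inr (Or.inl (⟨rfl, rfl, Or.inr (⟨AU_tr _ _ _ _ _ _ AU_startS 5 8 2 1 0 (by decide), AU_tr _ _ _ _ _ _ AU_startS 5 34 2 0 2 (by decide), by norm_num, by norm_num, by norm_num⟩)⟩))
  · -- c0=0 c=0 state p0 b=6
    obtain rfl : c2 = 0 := by omega
    exact Or.inl (⟨rfl, rfl, Or.inr (Or.inr (Or.inl (AU_tr _ _ _ _ _ _ AU_startS 6 34 25 0 10 (by decide))))⟩)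
  · -- c0=0 c=0 state p0 b=7
    omega

theorem AU_n_00_0_0 (p w0 w1 w2 : ℕ) (hS : AU_S p w0 w1 w2 0 0) (b c2 : ℕ) (hb : b < 8)
    (hc : 0 + b % 2 + b / 4 % 2 = b / 2 % 2 + 2 * c2) :
    AU_Inv 0 c2 (p + 1) (w0 + 2 ^ p * (b % 2)) (w1 + 2 ^ p * (b / 2 % 2)) (w2 + 2 ^ p * (b / 4 % 2)) := by
  interval_cases b
  · -- c0=0 c=0 state (0, 0) b=0
    obtain rfl : c2 = 0 := by omega
    exact Or.inl (⟨rfl, rfl, Or.inr (Or.inl (AU_tr _ _ _ _ _ _ hS 0 0 7 0 0 (by decide)))⟩)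
  · -- c0=0 c=0 state (0, 0) b=1
    omega
  · -- c0=0 c=0 state (0, 0) b=2
    omega
  · -- c0=0 c=0 state (0, 0) b=3
    obtain rfl : c2 = 0 := by omega
    exact Or.inl (⟨rfl, rfl, Or.inr (Or.inl (AU_tr _ _ _ _ _ _ hS 3 0 28 0 0 (by decide)))⟩)
  · -- c0=0 c=0 state (0, 0) b=4
    omega
  · -- c0=0 c=0 state (0, 0) b=5
    obtain rfl : c2 = 1 := by omega
    exact Or.inr (Or.inl (⟨rfl, rfl, Or.inl (AU_tr _ _ _ _ _ _ hS 5 0 42 0 0 (by decide))⟩))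
  · -- c0=0 c=0 state (0, 0) b=6
    obtain rfl : c2 = 0 := by omega
    exact Or.inl (⟨rfl, rfl, Or.inr (Or.inl (AU_tr _ _ _ _ _ _ hS 6 0 49 0 0 (by decide)))⟩)
  · -- c0=0 c=0 state (0, 0) b=7
    omega

theorem AU_n_00_0_10 (p w0 w1 w2 : ℕ) (hS : AU_S p w0 w1 w2 0 10) (b c2 : ℕ) (hb : b < 8)
    (hc : 0 + b % 2 + b / 4 % 2 = b / 2 % 2 + 2 * c2) :
    AU_Inv 0 c2 (p + 1) (w0 + 2 ^ p * (b % 2)) (w1 + 2 ^ p * (b / 2 % 2)) (w2 + 2 ^ p * (b / 4 % 2)) := by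
  interval_cases b
  · -- c0=0 c=0 state (0, 10) b=0
    obtain rfl : c2 = 0 := by omega
    exact Or.inl (⟨rfl, rfl, Or.inr (Or.inr (Or.inr (Or.inr (AU_tr _ _ _ _ _ _ hS 0 9 32 0 40 (by decide)))))⟩)
  · -- c0=0 c=0 state (0, 10) b=1
    omega
  · -- c0=0 c=0 state (0, 10) b=2
    omega
  · -- c0=0 c=0 state (0, 10) b=3
    obtain rfl : c2 = 0 := by omega
    exact Or.inl (⟨rfl, rfl, Or.inr (Or.inr (Or.inr (Or.inl (AU_tr _ _ _ _ _ _ hS 3 36 32 0 34 (by decide)))))⟩)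
  · -- c0=0 c=0 state (0, 10) b=4
    omega
  · -- c0=0 c=0 state (0, 10) b=5
    obtain rfl : c2 = 1 := by omega
    exact Or.inr (Or.inl (⟨rfl, rfl, Or.inl (AU_tr _ _ _ _ _ _ hS 5 0 32 0 0 (by decide))⟩))
  · -- c0=0 c=0 state (0, 10) b=6
    obtain rfl : c2 = 0 := by omega
    exact Or.inl (⟨rfl, rfl, Or.inr (Or.inr (Or.inl (AU_tr _ _ _ _ _ _ hS 6 18 32 0 10 (by decide))))⟩)
  · -- c0=0 c=0 state (0, 10) b=7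
    omega

theorem AU_n_00_0_34 (p w0 w1 w2 : ℕ) (hS : AU_S p w0 w1 w2 0 34) (b c2 : ℕ) (hb : b < 8)
    (hc : 0 + b % 2 + b / 4 % 2 = b / 2 % 2 + 2 * c2) :
    AU_Inv 0 c2 (p + 1) (w0 + 2 ^ p * (b % 2)) (w1 + 2 ^ p * (b / 2 % 2)) (w2 + 2 ^ p * (b / 4 % 2)) := by
  interval_cases b
  · -- c0=0 c=0 state (0, 34) b=0
    obtain rfl : c2 = 0 := by omega
    exact Or.inl (⟨rfl, rfl, Or.inr (Or.inr (Or.inr (Or.inr (AU_tr _ _ _ _ _ _ hS 0 9 8 0 40 (by decide)))))⟩)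
  · -- c0=0 c=0 state (0, 34) b=1
    omega
  · -- c0=0 c=0 state (0, 34) b=2
    omega
  · -- c0=0 c=0 state (0, 34) b=3
    obtain rfl : c2 = 0 := by omega
    exact Or.inl (⟨rfl, rfl, Or.inr (Or.inr (Or.inr (Or.inl (AU_tr _ _ _ _ _ _ hS 3 36 8 0 34 (by decide)))))⟩)
  · -- c0=0 c=0 state (0, 34) b=4
    omega
  · -- c0=0 c=0 state (0, 34) b=5
    obtain rfl : c2 = 1 := by omega
    exact Or.inr (Or.inl (⟨rfl, rfl, Or.inl (AU_tr _ _ _ _ _ _ hS 5 0 8 0 0 (by decide))⟩))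
  · -- c0=0 c=0 state (0, 34) b=6
    obtain rfl : c2 = 0 := by omega
    exact Or.inl (⟨rfl, rfl, Or.inr (Or.inr (Or.inl (AU_tr _ _ _ _ _ _ hS 6 18 8 0 10 (by decide))))⟩)
  · -- c0=0 c=0 state (0, 34) b=7
    omega

theorem AU_n_00_0_40 (p w0 w1 w2 : ℕ) (hS : AU_S p w0 w1 w2 0 40) (b c2 : ℕ) (hb : b < 8)
    (hc : 0 + b % 2 + b / 4 % 2 = b / 2 % 2 + 2 * c2) :
    AU_Inv 0 c2 (p + 1) (w0 + 2 ^ p * (b % 2)) (w1 + 2 ^ p * (b / 2 % 2)) (w2 + 2 ^ p * (b / 4 % 2)) := by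
  interval_cases b
  · -- c0=0 c=0 state (0, 40) b=0
    obtain rfl : c2 = 0 := by omega
    exact Or.inl (⟨rfl, rfl, Or.inr (Or.inr (Or.inr (Or.inr (AU_tr _ _ _ _ _ _ hS 0 9 2 0 40 (by decide)))))⟩)
  · -- c0=0 c=0 state (0, 40) b=1
    omega
  · -- c0=0 c=0 state (0, 40) b=2
    omega
  · -- c0=0 c=0 state (0, 40) b=3
    obtain rfl : c2 = 0 := by omega
    exact Or.inl (⟨rfl, rfl, Or.inr (Or.inr (Or.inr (Or.inl (AU_tr _ _ _ _ _ _ hS 3 36 2 0 34 (by decide)))))⟩)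
  · -- c0=0 c=0 state (0, 40) b=4
    omega
  · -- c0=0 c=0 state (0, 40) b=5
    obtain rfl : c2 = 1 := by omega
    exact Or.inr (Or.inl (⟨rfl, rfl, Or.inl (AU_tr _ _ _ _ _ _ hS 5 0 2 0 0 (by decide))⟩))
  · -- c0=0 c=0 state (0, 40) b=6
    obtain rfl : c2 = 0 := by omega
    exact Or.inl (⟨rfl, rfl, Or.inr (Or.inr (Or.inl (AU_tr _ _ _ _ _ _ hS 6 18 2 0 10 (by decide))))⟩)
  · -- c0=0 c=0 state (0, 40) b=7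
    omega

theorem AU_n_01_0_0 (p w0 w1 w2 : ℕ) (hS : AU_S p w0 w1 w2 0 0) (b c2 : ℕ) (hb : b < 8)
    (hc : 1 + b % 2 + b / 4 % 2 = b / 2 % 2 + 2 * c2) :
    AU_Inv 0 c2 (p + 1) (w0 + 2 ^ p * (b % 2)) (w1 + 2 ^ p * (b / 2 % 2)) (w2 + 2 ^ p * (b / 4 % 2)) := by
  interval_cases b
  · -- c0=0 c=1 state (0, 0) b=0
    omega
  · -- c0=0 c=1 state (0, 0) b=1
    obtain rfl : c2 = 1 := by omega
    exact Or.inr (Or.inl (⟨rfl, rfl, Or.inl (AU_tr _ _ _ _ _ _ hS 1 0 14 0 0 (by decide))⟩))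
  · -- c0=0 c=1 state (0, 0) b=2
    obtain rfl : c2 = 0 := by omega
    exact Or.inl (⟨rfl, rfl, Or.inr (Or.inl (AU_tr _ _ _ _ _ _ hS 2 0 21 0 0 (by decide)))⟩)
  · -- c0=0 c=1 state (0, 0) b=3
    omega
  · -- c0=0 c=1 state (0, 0) b=4
    obtain rfl : c2 = 1 := by omega
    exact Or.inr (Or.inl (⟨rfl, rfl, Or.inl (AU_tr _ _ _ _ _ _ hS 4 0 35 0 0 (by decide))⟩))
  · -- c0=0 c=1 state (0, 0) b=5
    omega
  · -- c0=0 c=1 state (0, 0) b=6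
    omega
  · -- c0=0 c=1 state (0, 0) b=7
    obtain rfl : c2 = 1 := by omega
    exact Or.inr (Or.inl (⟨rfl, rfl, Or.inl (AU_tr _ _ _ _ _ _ hS 7 0 56 0 0 (by decide))⟩))

theorem AU_n_01_X (p w0 w1 w2 : ℕ) (hS : AU_S p w0 w1 w2 1 0) (hX : AU_S p w0 w1 w2 0 2)
    (x0 : w0 + 1 = 2 ^ p) (x1 : w1 + 2 = 2 ^ p) (x2 : w2 + 1 = 2 ^ p) (b c2 : ℕ) (hb : b < 8)
    (hc : 1 + b % 2 + b / 4 % 2 = b / 2 % 2 + 2 * c2) :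
    AU_Inv 0 c2 (p + 1) (w0 + 2 ^ p * (b % 2)) (w1 + 2 ^ p * (b / 2 % 2)) (w2 + 2 ^ p * (b / 4 % 2)) := by
  interval_cases b
  · -- c0=0 c=1 state X b=0
    omega
  · -- c0=0 c=1 state X b=1
    obtain rfl : c2 = 1 := by omega
    exact Or.inr (Or.inl (⟨rfl, rfl, Or.inl (AU_tr _ _ _ _ _ _ hX 1 0 12 0 0 (by decide))⟩))
  · -- c0=0 c=1 state X b=2
    obtain rfl : c2 = 0 := by omega
    exact Or.inl (⟨rfl, rfl, Or.inr (Or.inl (AU_tr _ _ _ _ _ _ hS 2 1 16 0 0 (by decide)))⟩)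
  · -- c0=0 c=1 state X b=3
    omega
  · -- c0=0 c=1 state X b=4
    obtain rfl : c2 = 1 := by omega
    exact Or.inr (Or.inl (⟨rfl, rfl, Or.inl (AU_tr _ _ _ _ _ _ hX 4 0 33 0 0 (by decide))⟩))
  · -- c0=0 c=1 state X b=5
    omega
  · -- c0=0 c=1 state X b=6
    omega
  · -- c0=0 c=1 state X b=7
    obtain rfl : c2 = 1 := by omega
    exact Or.inr (Or.inl (⟨rfl, rfl, Or.inr (⟨AU_tr _ _ _ _ _ _ hS 7 8 16 1 0 (by decide), AU_tr _ _ _ _ _ _ hS 7 34 16 0 2 (by decide), by rw [pow_succ]; omega, by rw [pow_succ]; omega, by rw [pow_succ]; omega⟩)⟩))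

theorem AU_n_11_p (b c2 : ℕ) (hb : b < 8)
    (hc : 1 + b % 2 + b / 4 % 2 = b / 2 % 2 + 2 * c2) :
    AU_Inv 1 c2 (0 + 1) (0 + 2 ^ 0 * (b % 2)) (0 + 2 ^ 0 * (b / 2 % 2)) (0 + 2 ^ 0 * (b / 4 % 2)) := by
  interval_cases b
  · -- c0=1 c=1 state p0 b=0
    omega
  · -- c0=1 c=1 state p0 b=1
    obtain rfl : c2 = 1 := by omega
    exact Or.inr (Or.inr (Or.inl (⟨rfl, rfl, Or.inr (Or.inr (Or.inl (AU_tr _ _ _ _ _ _ AU_startS 1 1 11 0 1 (by decide))))⟩)))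
  · -- c0=1 c=1 state p0 b=2
    obtain rfl : c2 = 0 := by omega
    exact Or.inr (Or.inr (Or.inr (⟨rfl, rfl, AU_tr _ _ _ _ _ _ AU_startS 2 1 16 0 0 (by decide)⟩)))
  · -- c0=1 c=1 state p0 b=3
    omega
  · -- c0=1 c=1 state p0 b=4
    obtain rfl : c2 = 1 := by omega
    exact Or.inr (Or.inr (Or.inl (⟨rfl, rfl, Or.inr (Or.inr (Or.inr (Or.inl (AU_tr _ _ _ _ _ _ AU_startS 4 1 38 0 4 (by decide)))))⟩)))
  · -- c0=1 c=1 state p0 b=5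
    omega
  · -- c0=1 c=1 state p0 b=6
    omega
  · -- c0=1 c=1 state p0 b=7
    obtain rfl : c2 = 1 := by omega
    exact Or.inr (Or.inr (Or.inl (⟨rfl, rfl, Or.inr (Or.inr (Or.inr (Or.inr (Or.inr (Or.inr (Or.inr (⟨AU_tr _ _ _ _ _ _ AU_startS 7 8 16 1 0 (by decide), AU_tr _ _ _ _ _ _ AU_startS 7 34 16 0 2 (by decide)⟩)))))))⟩)))

theorem AU_n_11_0_0 (p w0 w1 w2 : ℕ) (hS : AU_S p w0 w1 w2 0 0) (b c2 : ℕ) (hb : b < 8)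
    (hc : 1 + b % 2 + b / 4 % 2 = b / 2 % 2 + 2 * c2) :
    AU_Inv 1 c2 (p + 1) (w0 + 2 ^ p * (b % 2)) (w1 + 2 ^ p * (b / 2 % 2)) (w2 + 2 ^ p * (b / 4 % 2)) := by
  interval_cases b
  · -- c0=1 c=1 state (0, 0) b=0
    omega
  · -- c0=1 c=1 state (0, 0) b=1
    obtain rfl : c2 = 1 := by omega
    exact Or.inr (Or.inr (Or.inl (⟨rfl, rfl, Or.inr (Or.inl (AU_tr _ _ _ _ _ _ hS 1 0 14 0 0 (by decide)))⟩)))
  · -- c0=1 c=1 state (0, 0) b=2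
    obtain rfl : c2 = 0 := by omega
    exact Or.inr (Or.inr (Or.inr (⟨rfl, rfl, AU_tr _ _ _ _ _ _ hS 2 0 21 0 0 (by decide)⟩)))
  · -- c0=1 c=1 state (0, 0) b=3
    omega
  · -- c0=1 c=1 state (0, 0) b=4
    obtain rfl : c2 = 1 := by omega
    exact Or.inr (Or.inr (Or.inl (⟨rfl, rfl, Or.inr (Or.inl (AU_tr _ _ _ _ _ _ hS 4 0 35 0 0 (by decide)))⟩)))
  · -- c0=1 c=1 state (0, 0) b=5
    omega
  · -- c0=1 c=1 state (0, 0) b=6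
    omega
  · -- c0=1 c=1 state (0, 0) b=7
    obtain rfl : c2 = 1 := by omega
    exact Or.inr (Or.inr (Or.inl (⟨rfl, rfl, Or.inr (Or.inl (AU_tr _ _ _ _ _ _ hS 7 0 56 0 0 (by decide)))⟩)))

theorem AU_n_11_0_1 (p w0 w1 w2 : ℕ) (hS : AU_S p w0 w1 w2 0 1) (b c2 : ℕ) (hb : b < 8)
    (hc : 1 + b % 2 + b / 4 % 2 = b / 2 % 2 + 2 * c2) :
    AU_Inv 1 c2 (p + 1) (w0 + 2 ^ p * (b % 2)) (w1 + 2 ^ p * (b / 2 % 2)) (w2 + 2 ^ p * (b / 4 % 2)) := by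
  interval_cases b
  · -- c0=1 c=1 state (0, 1) b=0
    omega
  · -- c0=1 c=1 state (0, 1) b=1
    obtain rfl : c2 = 1 := by omega
    exact Or.inr (Or.inr (Or.inl (⟨rfl, rfl, Or.inr (Or.inr (Or.inr (Or.inr (Or.inl (AU_tr _ _ _ _ _ _ hS 1 18 20 0 17 (by decide))))))⟩)))
  · -- c0=1 c=1 state (0, 1) b=2
    obtain rfl : c2 = 0 := by omega
    exact Or.inr (Or.inr (Or.inr (⟨rfl, rfl, AU_tr _ _ _ _ _ _ hS 2 0 20 0 0 (by decide)⟩)))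
  · -- c0=1 c=1 state (0, 1) b=3
    omega
  · -- c0=1 c=1 state (0, 1) b=4
    obtain rfl : c2 = 1 := by omega
    exact Or.inr (Or.inr (Or.inl (⟨rfl, rfl, Or.inr (Or.inl (AU_tr _ _ _ _ _ _ hS 4 0 34 0 0 (by decide)))⟩)))
  · -- c0=1 c=1 state (0, 1) b=5
    omega
  · -- c0=1 c=1 state (0, 1) b=6
    omega
  · -- c0=1 c=1 state (0, 1) b=7
    obtain rfl : c2 = 1 := by omega
    exact Or.inr (Or.inr (Or.inl (⟨rfl, rfl, Or.inr (Or.inr (Or.inr (Or.inr (Or.inr (Or.inr (Or.inl (AU_tr _ _ _ _ _ _ hS 7 9 20 0 5 (by decide))))))))⟩)))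

theorem AU_n_11_0_4 (p w0 w1 w2 : ℕ) (hS : AU_S p w0 w1 w2 0 4) (b c2 : ℕ) (hb : b < 8)
    (hc : 1 + b % 2 + b / 4 % 2 = b / 2 % 2 + 2 * c2) :
    AU_Inv 1 c2 (p + 1) (w0 + 2 ^ p * (b % 2)) (w1 + 2 ^ p * (b / 2 % 2)) (w2 + 2 ^ p * (b / 4 % 2)) := by
  interval_cases b
  · -- c0=1 c=1 state (0, 4) b=0
    omega
  · -- c0=1 c=1 state (0, 4) b=1
    obtain rfl : c2 = 1 := by omega
    exact Or.inr (Or.inr (Or.inl (⟨rfl, rfl, Or.inr (Or.inl (AU_tr _ _ _ _ _ _ hS 1 0 10 0 0 (by decide)))⟩)))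
  · -- c0=1 c=1 state (0, 4) b=2
    obtain rfl : c2 = 0 := by omega
    exact Or.inr (Or.inr (Or.inr (⟨rfl, rfl, AU_tr _ _ _ _ _ _ hS 2 0 17 0 0 (by decide)⟩)))
  · -- c0=1 c=1 state (0, 4) b=3
    omega
  · -- c0=1 c=1 state (0, 4) b=4
    obtain rfl : c2 = 1 := by omega
    exact Or.inr (Or.inr (Or.inl (⟨rfl, rfl, Or.inr (Or.inr (Or.inr (Or.inr (Or.inr (Or.inl (AU_tr _ _ _ _ _ _ hS 4 36 17 0 20 (by decide)))))))⟩)))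
  · -- c0=1 c=1 state (0, 4) b=5
    omega
  · -- c0=1 c=1 state (0, 4) b=6
    omega
  · -- c0=1 c=1 state (0, 4) b=7
    obtain rfl : c2 = 1 := by omega
    exact Or.inr (Or.inr (Or.inl (⟨rfl, rfl, Or.inr (Or.inr (Or.inr (Or.inr (Or.inr (Or.inr (Or.inl (AU_tr _ _ _ _ _ _ hS 7 9 17 0 5 (by decide))))))))⟩)))

theorem AU_n_11_0_17 (p w0 w1 w2 : ℕ) (hS : AU_S p w0 w1 w2 0 17) (b c2 : ℕ) (hb : b < 8)
    (hc : 1 + b % 2 + b / 4 % 2 = b / 2 % 2 + 2 * c2) :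
    AU_Inv 1 c2 (p + 1) (w0 + 2 ^ p * (b % 2)) (w1 + 2 ^ p * (b / 2 % 2)) (w2 + 2 ^ p * (b / 4 % 2)) := by
  interval_cases b
  · -- c0=1 c=1 state (0, 17) b=0
    omega
  · -- c0=1 c=1 state (0, 17) b=1
    obtain rfl : c2 = 1 := by omega
    exact Or.inr (Or.inr (Or.inl (⟨rfl, rfl, Or.inr (Or.inr (Or.inr (Or.inr (Or.inl (AU_tr _ _ _ _ _ _ hS 1 18 4 0 17 (by decide))))))⟩)))
  · -- c0=1 c=1 state (0, 17) b=2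
    obtain rfl : c2 = 0 := by omega
    exact Or.inr (Or.inr (Or.inr (⟨rfl, rfl, AU_tr _ _ _ _ _ _ hS 2 0 4 0 0 (by decide)⟩)))
  · -- c0=1 c=1 state (0, 17) b=3
    omega
  · -- c0=1 c=1 state (0, 17) b=4
    obtain rfl : c2 = 1 := by omega
    exact Or.inr (Or.inr (Or.inl (⟨rfl, rfl, Or.inr (Or.inr (Or.inr (Or.inr (Or.inr (Or.inl (AU_tr _ _ _ _ _ _ hS 4 36 4 0 20 (by decide)))))))⟩)))
  · -- c0=1 c=1 state (0, 17) b=5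
    omega
  · -- c0=1 c=1 state (0, 17) b=6
    omega
  · -- c0=1 c=1 state (0, 17) b=7
    obtain rfl : c2 = 1 := by omega
    exact Or.inr (Or.inr (Or.inl (⟨rfl, rfl, Or.inr (Or.inr (Or.inr (Or.inr (Or.inr (Or.inr (Or.inl (AU_tr _ _ _ _ _ _ hS 7 9 4 0 5 (by decide))))))))⟩)))

theorem AU_n_11_0_20 (p w0 w1 w2 : ℕ) (hS : AU_S p w0 w1 w2 0 20) (b c2 : ℕ) (hb : b < 8)
    (hc : 1 + b % 2 + b / 4 % 2 = b / 2 % 2 + 2 * c2) :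
    AU_Inv 1 c2 (p + 1) (w0 + 2 ^ p * (b % 2)) (w1 + 2 ^ p * (b / 2 % 2)) (w2 + 2 ^ p * (b / 4 % 2)) := by
  interval_cases b
  · -- c0=1 c=1 state (0, 20) b=0
    omega
  · -- c0=1 c=1 state (0, 20) b=1
    obtain rfl : c2 = 1 := by omega
    exact Or.inr (Or.inr (Or.inl (⟨rfl, rfl, Or.inr (Or.inr (Or.inr (Or.inr (Or.inl (AU_tr _ _ _ _ _ _ hS 1 18 1 0 17 (by decide))))))⟩)))
  · -- c0=1 c=1 state (0, 20) b=2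
    obtain rfl : c2 = 0 := by omega
    exact Or.inr (Or.inr (Or.inr (⟨rfl, rfl, AU_tr _ _ _ _ _ _ hS 2 0 1 0 0 (by decide)⟩)))
  · -- c0=1 c=1 state (0, 20) b=3
    omega
  · -- c0=1 c=1 state (0, 20) b=4
    obtain rfl : c2 = 1 := by omega
    exact Or.inr (Or.inr (Or.inl (⟨rfl, rfl, Or.inr (Or.inr (Or.inr (Or.inr (Or.inr (Or.inl (AU_tr _ _ _ _ _ _ hS 4 36 1 0 20 (by decide)))))))⟩)))
  · -- c0=1 c=1 state (0, 20) b=5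
    omega
  · -- c0=1 c=1 state (0, 20) b=6
    omega
  · -- c0=1 c=1 state (0, 20) b=7
    obtain rfl : c2 = 1 := by omega
    exact Or.inr (Or.inr (Or.inl (⟨rfl, rfl, Or.inr (Or.inr (Or.inr (Or.inr (Or.inr (Or.inr (Or.inl (AU_tr _ _ _ _ _ _ hS 7 9 1 0 5 (by decide))))))))⟩)))

theorem AU_n_11_0_5 (p w0 w1 w2 : ℕ) (hS : AU_S p w0 w1 w2 0 5) (b c2 : ℕ) (hb : b < 8)
    (hc : 1 + b % 2 + b / 4 % 2 = b / 2 % 2 + 2 * c2) :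
    AU_Inv 1 c2 (p + 1) (w0 + 2 ^ p * (b % 2)) (w1 + 2 ^ p * (b / 2 % 2)) (w2 + 2 ^ p * (b / 4 % 2)) := by
  interval_cases b
  · -- c0=1 c=1 state (0, 5) b=0
    omega
  · -- c0=1 c=1 state (0, 5) b=1
    obtain rfl : c2 = 1 := by omega
    exact Or.inr (Or.inr (Or.inl (⟨rfl, rfl, Or.inr (Or.inr (Or.inr (Or.inr (Or.inl (AU_tr _ _ _ _ _ _ hS 1 18 16 0 17 (by decide))))))⟩)))
  · -- c0=1 c=1 state (0, 5) b=2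
    obtain rfl : c2 = 0 := by omega
    exact Or.inr (Or.inr (Or.inr (⟨rfl, rfl, AU_tr _ _ _ _ _ _ hS 2 0 16 0 0 (by decide)⟩)))
  · -- c0=1 c=1 state (0, 5) b=3
    omega
  · -- c0=1 c=1 state (0, 5) b=4
    obtain rfl : c2 = 1 := by omega
    exact Or.inr (Or.inr (Or.inl (⟨rfl, rfl, Or.inr (Or.inr (Or.inr (Or.inr (Or.inr (Or.inl (AU_tr _ _ _ _ _ _ hS 4 36 16 0 20 (by decide)))))))⟩)))
  · -- c0=1 c=1 state (0, 5) b=5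
    omega
  · -- c0=1 c=1 state (0, 5) b=6
    omega
  · -- c0=1 c=1 state (0, 5) b=7
    obtain rfl : c2 = 1 := by omega
    exact Or.inr (Or.inr (Or.inl (⟨rfl, rfl, Or.inr (Or.inr (Or.inr (Or.inr (Or.inr (Or.inr (Or.inl (AU_tr _ _ _ _ _ _ hS 7 9 16 0 5 (by decide))))))))⟩)))

theorem AU_n_11_X (p w0 w1 w2 : ℕ) (hS : AU_S p w0 w1 w2 1 0) (hX : AU_S p w0 w1 w2 0 2)
    (b c2 : ℕ) (hb : b < 8)
    (hc : 1 + b % 2 + b / 4 % 2 = b / 2 % 2 + 2 * c2) :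
    AU_Inv 1 c2 (p + 1) (w0 + 2 ^ p * (b % 2)) (w1 + 2 ^ p * (b / 2 % 2)) (w2 + 2 ^ p * (b / 4 % 2)) := by
  interval_cases b
  · -- c0=1 c=1 state X b=0
    omega
  · -- c0=1 c=1 state X b=1
    obtain rfl : c2 = 1 := by omega
    exact Or.inr (Or.inr (Or.inl (⟨rfl, rfl, Or.inr (Or.inl (AU_tr _ _ _ _ _ _ hX 1 0 12 0 0 (by decide)))⟩)))
  · -- c0=1 c=1 state X b=2
    obtain rfl : c2 = 0 := by omega
    exact Or.inr (Or.inr (Or.inr (⟨rfl, rfl, AU_tr _ _ _ _ _ _ hS 2 1 16 0 0 (by decide)⟩)))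
  · -- c0=1 c=1 state X b=3
    omega
  · -- c0=1 c=1 state X b=4
    obtain rfl : c2 = 1 := by omega
    exact Or.inr (Or.inr (Or.inl (⟨rfl, rfl, Or.inr (Or.inl (AU_tr _ _ _ _ _ _ hX 4 0 33 0 0 (by decide)))⟩)))
  · -- c0=1 c=1 state X b=5
    omega
  · -- c0=1 c=1 state X b=6
    omega
  · -- c0=1 c=1 state X b=7
    obtain rfl : c2 = 1 := by omega
    exact Or.inr (Or.inr (Or.inl (⟨rfl, rfl, Or.inr (Or.inr (Or.inr (Or.inr (Or.inr (Or.inr (Or.inr (⟨AU_tr _ _ _ _ _ _ hS 7 8 16 1 0 (by decide), AU_tr _ _ _ _ _ _ hS 7 34 16 0 2 (by decide)⟩)))))))⟩)))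

theorem AU_n_10_0_0 (p w0 w1 w2 : ℕ) (hS : AU_S p w0 w1 w2 0 0) (b c2 : ℕ) (hb : b < 8)
    (hc : 0 + b % 2 + b / 4 % 2 = b / 2 % 2 + 2 * c2) :
    AU_Inv 1 c2 (p + 1) (w0 + 2 ^ p * (b % 2)) (w1 + 2 ^ p * (b / 2 % 2)) (w2 + 2 ^ p * (b / 4 % 2)) := by
  interval_cases b
  · -- c0=1 c=0 state (0, 0) b=0
    obtain rfl : c2 = 0 := by omega
    exact Or.inr (Or.inr (Or.inr (⟨rfl, rfl, AU_tr _ _ _ _ _ _ hS 0 0 7 0 0 (by decide)⟩)))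
  · -- c0=1 c=0 state (0, 0) b=1
    omega
  · -- c0=1 c=0 state (0, 0) b=2
    omega
  · -- c0=1 c=0 state (0, 0) b=3
    obtain rfl : c2 = 0 := by omega
    exact Or.inr (Or.inr (Or.inr (⟨rfl, rfl, AU_tr _ _ _ _ _ _ hS 3 0 28 0 0 (by decide)⟩)))
  · -- c0=1 c=0 state (0, 0) b=4
    omega
  · -- c0=1 c=0 state (0, 0) b=5
    obtain rfl : c2 = 1 := by omega
    exact Or.inr (Or.inr (Or.inl (⟨rfl, rfl, Or.inr (Or.inl (AU_tr _ _ _ _ _ _ hS 5 0 42 0 0 (by decide)))⟩)))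
  · -- c0=1 c=0 state (0, 0) b=6
    obtain rfl : c2 = 0 := by omega
    exact Or.inr (Or.inr (Or.inr (⟨rfl, rfl, AU_tr _ _ _ _ _ _ hS 6 0 49 0 0 (by decide)⟩)))
  · -- c0=1 c=0 state (0, 0) b=7
    omega


theorem AU_next (c0 c p w0 w1 w2 : ℕ) (h0 : w0 < 2 ^ p) (h1 : w1 < 2 ^ p) (h2 : w2 < 2 ^ p)
    (hI : AU_Inv c0 c p w0 w1 w2) (b c2 : ℕ) (hb : b < 8)
    (hc : c + b % 2 + b / 4 % 2 = b / 2 % 2 + 2 * c2) :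
    AU_Inv c0 c2 (p + 1) (w0 + 2 ^ p * (b % 2)) (w1 + 2 ^ p * (b / 2 % 2))
      (w2 + 2 ^ p * (b / 4 % 2)) := by
  rcases hI with ⟨rfl, rfl, h⟩ | ⟨rfl, rfl, h⟩ | ⟨rfl, rfl, h⟩ | ⟨rfl, rfl, h⟩
  · rcases h with h | h | h | h | h
    · subst h
      obtain rfl : w0 = 0 := by simpa using h0
      obtain rfl : w1 = 0 := by simpa using h1
      obtain rfl : w2 = 0 := by simpa using h2
      exact AU_n_00_p b c2 hb hc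
    · exact AU_n_00_0_0 p w0 w1 w2 h b c2 hb hc
    · exact AU_n_00_0_10 p w0 w1 w2 h b c2 hb hc
    · exact AU_n_00_0_34 p w0 w1 w2 h b c2 hb hc
    · exact AU_n_00_0_40 p w0 w1 w2 h b c2 hb hc
  · rcases h with h | ⟨hS, hX, x0, x1, x2⟩
    · exact AU_n_01_0_0 p w0 w1 w2 h b c2 hb hc
    · exact AU_n_01_X p w0 w1 w2 hS hX x0 x1 x2 b c2 hb hc
  · rcases h with h | h | h | h | h | h | h | ⟨hS, hX⟩
    · subst h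
      obtain rfl : w0 = 0 := by simpa using h0
      obtain rfl : w1 = 0 := by simpa using h1
      obtain rfl : w2 = 0 := by simpa using h2
      exact AU_n_11_p b c2 hb hc
    · exact AU_n_11_0_0 p w0 w1 w2 h b c2 hb hc
    · exact AU_n_11_0_1 p w0 w1 w2 h b c2 hb hc
    · exact AU_n_11_0_4 p w0 w1 w2 h b c2 hb hc
    · exact AU_n_11_0_17 p w0 w1 w2 h b c2 hb hc
    · exact AU_n_11_0_20 p w0 w1 w2 h b c2 hb hc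
    · exact AU_n_11_0_5 p w0 w1 w2 h b c2 hb hc
    · exact AU_n_11_X p w0 w1 w2 hS hX b c2 hb hc
  · exact AU_n_10_0_0 p w0 w1 w2 h b c2 hb hc

theorem AU_all (c0 : ℕ) (hc0 : c0 < 2) : ∀ p w0 w1 w2 c : ℕ, w0 < 2 ^ p → w1 < 2 ^ p →
    w2 < 2 ^ p → w0 + w2 + c0 = w1 + 2 ^ p * c → AU_Inv c0 c p w0 w1 w2 := by
  intro p
  induction p with
  | zero =>
    intro w0 w1 w2 c h0 h1 h2 hc
    obtain rfl : w0 = 0 := by simpa using h0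
    obtain rfl : w1 = 0 := by simpa using h1
    obtain rfl : w2 = 0 := by simpa using h2
    obtain rfl : c = c0 := by simpa using hc.symm
    have : c = 0 ∨ c = 1 := by omega
    rcases this with rfl | rfl
    · exact Or.inl ⟨rfl, rfl, Or.inl rfl⟩
    · exact Or.inr (Or.inr (Or.inl ⟨rfl, rfl, Or.inl rfl⟩))
  | succ p ih =>
    intro w0 w1 w2 c h0 h1 h2 hc
    have hp : 0 < 2 ^ p := by positivity
    have d0 := Nat.mod_add_div w0 (2 ^ p)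
    have d1 := Nat.mod_add_div w1 (2 ^ p)
    have d2 := Nat.mod_add_div w2 (2 ^ p)
    have m0 := Nat.mod_lt w0 hp
    have m1 := Nat.mod_lt w1 hp
    have m2 := Nat.mod_lt w2 hp
    have q0 : w0 / 2 ^ p < 2 := by
      rw [Nat.div_lt_iff_lt_mul hp]; rw [pow_succ] at h0; omega
    have q1 : w1 / 2 ^ p < 2 := by
      rw [Nat.div_lt_iff_lt_mul hp]; rw [pow_succ] at h1; omega
    have q2 : w2 / 2 ^ p < 2 := by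
      rw [Nat.div_lt_iff_lt_mul hp]; rw [pow_succ] at h2; omega
    generalize w0 % 2 ^ p = u0 at *
    generalize w1 % 2 ^ p = u1 at *
    generalize w2 % 2 ^ p = u2 at *
    generalize w0 / 2 ^ p = b0 at *
    generalize w1 / 2 ^ p = b1 at *
    generalize w2 / 2 ^ p = b2 at *
    subst d0 d1 d2
    -- the middle carry
    have hcc : ∃ c' : ℕ, u0 + u2 + c0 = u1 + 2 ^ p * c' ∧ c' + b0 + b2 = b1 + 2 * c := by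
      rw [pow_succ] at hc
      have hZ : (u0 : ℤ) + u2 + c0 - u1 = 2 ^ p * (2 * c + b1 - b0 - b2) := by
        have : ((u0 + 2 ^ p * b0 + (u2 + 2 ^ p * b2) + c0 : ℕ) : ℤ) =
          ((u1 + 2 ^ p * b1 + 2 ^ p * 2 * c : ℕ) : ℤ) := by exact_mod_cast hc
        push_cast at this
        linear_combination this
      have hlow : (0 : ℤ) ≤ 2 * c + b1 - b0 - b2 := by
        by_contra hneg
        push Not at hneg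
        have h3 : (2 * c + b1 - b0 - b2 : ℤ) ≤ -1 := by omega
        have hP : (0 : ℤ) < 2 ^ p := by positivity
        have h4 : (2 : ℤ) ^ p * (2 * c + b1 - b0 - b2) ≤ 2 ^ p * (-1) :=
          mul_le_mul_of_nonneg_left h3 hP.le
        have h5 : (u1 : ℤ) < 2 ^ p := by exact_mod_cast m1
        have h6 : (0 : ℤ) ≤ u0 := by positivity
        have h7 : (0 : ℤ) ≤ u2 := by positivity
        have h8 : (0 : ℤ) ≤ c0 := by positivity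
        linarith
      refine ⟨(2 * (c : ℤ) + b1 - b0 - b2).toNat, ?_, ?_⟩
      · have h9 : ((2 * (c : ℤ) + b1 - b0 - b2).toNat : ℤ) = 2 * c + b1 - b0 - b2 :=
          Int.toNat_of_nonneg hlow
        have : ((u0 + u2 + c0 : ℕ) : ℤ) =
            ((u1 + 2 ^ p * (2 * (c : ℤ) + b1 - b0 - b2).toNat : ℕ) : ℤ) := by
          push_cast
          rw [h9]
          linarith
        exact_mod_cast this
      · omega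
    obtain ⟨c', hc1, hc2⟩ := hcc
    have hI := ih u0 u1 u2 c' m0 m1 m2 hc1
    have hB0 : (b0 + 2 * b1 + 4 * b2) % 2 = b0 := by omega
    have hB1 : (b0 + 2 * b1 + 4 * b2) / 2 % 2 = b1 := by omega
    have hB2 : (b0 + 2 * b1 + 4 * b2) / 4 % 2 = b2 := by omega
    have := AU_next c0 c' p u0 u1 u2 m0 m1 m2 hI (b0 + 2 * b1 + 4 * b2) c (by omega)
      (by rw [hB0, hB1, hB2]; omega)
    rw [hB0, hB1, hB2] at this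
    exact this

theorem AU_fin (h W0 W1 W2 : ℕ) (hS : AU_S h W0 W1 W2 0 0) :
    ∃ J0 J1 J2 J3 J4 J5 Z0 Z1 Z2 Z3 Z4 Z5 : ℕ, ∃ D : ℤ,
      J0 + J4 + Z0 + W0 + 1 = 2 ^ h ∧ J1 + J5 + Z1 + W1 + 1 = 2 ^ h ∧
      J2 + J0 + Z2 + W2 + 1 = 2 ^ h ∧
      J3 + J1 + Z3 = W0 ∧ J4 + J2 + Z4 = W1 ∧ J5 + J3 + Z5 = W2 ∧
      (J2 : ℤ) - J5 = D ∧ (J4 : ℤ) - J1 = D ∧ (J0 : ℤ) - J3 = D + 1 ∧
      (bw J0 + bw J1 + bw J2 + bw J3 + bw J4 + bw J5) +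
        (bw Z0 + bw Z1 + bw Z2 + bw Z3 + bw Z4 + bw Z5) ≤ 3 * h := by
  obtain ⟨J0, J1, J2, J3, J4, J5, Z0, Z1, Z2, Z3, Z4, Z5, D, -, -, E0, E1, E2, E3, E4, E5,
    F1, F2, F3, hw⟩ := hS
  refine ⟨J0, J1, J2, J3, J4, J5, Z0, Z1, Z2, Z3, Z4, Z5, D, ?_, ?_, ?_, ?_, ?_, ?_, F1, F2, ?_,
    ?_⟩
  · simpa using E0
  · simpa using E1
  · simpa using E2
  · simpa using E3
  · simpa using E4
  · simpa using E5
  · simpa using F3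
  · simpa using hw

theorem aut (h W0 W1 W2 : ℕ) (h0 : W0 < 2 ^ h) (h1 : W1 < 2 ^ h) (h2 : W2 < 2 ^ h)
    (hdiv : 2 ^ h + 1 ∣ W0 + 2 ^ h * W1 + 2 ^ (2 * h) * W2 + 1)
    (hexc : ¬ (W0 + 1 = 2 ^ h ∧ W1 + 2 = 2 ^ h ∧ W2 + 1 = 2 ^ h)) :
    ∃ J0 J1 J2 J3 J4 J5 Z0 Z1 Z2 Z3 Z4 Z5 : ℕ, ∃ D : ℤ,
      J0 + J4 + Z0 + W0 + 1 = 2 ^ h ∧ J1 + J5 + Z1 + W1 + 1 = 2 ^ h ∧
      J2 + J0 + Z2 + W2 + 1 = 2 ^ h ∧
      J3 + J1 + Z3 = W0 ∧ J4 + J2 + Z4 = W1 ∧ J5 + J3 + Z5 = W2 ∧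
      (J2 : ℤ) - J5 = D ∧ (J4 : ℤ) - J1 = D ∧ (J0 : ℤ) - J3 = D + 1 ∧
      (bw J0 + bw J1 + bw J2 + bw J3 + bw J4 + bw J5) +
        (bw Z0 + bw Z1 + bw Z2 + bw Z3 + bw Z4 + bw Z5) ≤ 3 * h := by
  apply AU_fin
  -- the two cases k = 0, 1
  have hq : (0 : ℤ) < 2 ^ h := by positivity
  have hk : ∃ k : ℤ, (W0 : ℤ) - W1 + W2 + 1 = k * (2 ^ h + 1) := by
    obtain ⟨u, hu⟩ := hdiv
    have hu' : (W0 : ℤ) + 2 ^ h * W1 + 2 ^ (2 * h) * W2 + 1 = (2 ^ h + 1) * u := by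
      exact_mod_cast hu
    refine ⟨u - W1 - (2 ^ h - 1) * W2, ?_⟩
    have e : (2 : ℤ) ^ (2 * h) = 2 ^ h * 2 ^ h := by rw [two_mul, pow_add]
    rw [e] at hu'
    linear_combination hu'
  obtain ⟨k, hk⟩ := hk
  have a0 : (W0 : ℤ) < 2 ^ h := by exact_mod_cast h0
  have a1 : (W1 : ℤ) < 2 ^ h := by exact_mod_cast h1
  have a2 : (W2 : ℤ) < 2 ^ h := by exact_mod_cast h2
  have n0 : (0 : ℤ) ≤ W0 := by positivity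
  have n1 : (0 : ℤ) ≤ W1 := by positivity
  have n2 : (0 : ℤ) ≤ W2 := by positivity
  have k0 : 0 ≤ k := by
    by_contra hneg
    have : k ≤ -1 := by omega
    have := mul_le_mul_of_nonneg_right this (show (0 : ℤ) ≤ 2 ^ h + 1 by linarith)
    linarith
  have k1 : k ≤ 1 := by
    by_contra hneg
    have : 2 ≤ k := by omega
    have := mul_le_mul_of_nonneg_right this (show (0 : ℤ) ≤ 2 ^ h + 1 by linarith)
    linarith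
  have hk2 : k = 0 ∨ k = 1 := by omega
  rcases hk2 with rfl | rfl
  · have hc : W0 + W2 + 1 = W1 + 2 ^ h * 0 := by
      have : (W0 : ℤ) + W2 + 1 = W1 := by linarith
      have : W0 + W2 + 1 = W1 := by exact_mod_cast this
      simpa using this
    have hI := AU_all 1 (by norm_num) h W0 W1 W2 0 h0 h1 h2 hc
    rcases hI with ⟨h, -⟩ | ⟨h, -⟩ | ⟨-, h, -⟩ | ⟨-, -, h⟩
    · exact absurd h (by norm_num)
    · exact absurd h (by norm_num)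
    · exact absurd h (by norm_num)
    · exact h
  · have hc : W0 + W2 + 0 = W1 + 2 ^ h * 1 := by
      have : (W0 : ℤ) + W2 = W1 + 2 ^ h := by linarith
      have : W0 + W2 = W1 + 2 ^ h := by exact_mod_cast this
      simpa using this
    have hI := AU_all 0 (by norm_num) h W0 W1 W2 1 h0 h1 h2 hc
    rcases hI with ⟨-, h, -⟩ | ⟨-, -, h⟩ | ⟨h, -⟩ | ⟨h, -⟩
    · exact absurd h (by norm_num)
    · rcases h with h | ⟨-, -, x0, x1, x2⟩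
      · exact h
      · exact absurd ⟨x0, x1, x2⟩ hexc
    · exact absurd h (by norm_num)
    · exact absurd h (by norm_num)

end Pool.Agent.TV
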