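import Pool.Agent.Lib_helper65.TV.Defs

/-! TV, block B6 (helper29). Cites nothing. -/

set_option autoImplicit false

namespace Pool.Agent.TV

theorem base3 (d : ℕ) (hc : Nat.Coprime d 7) :
    (∃ i : ℕ, d ≡ 2 ^ i [MOD 7]) ∨ (∃ i : ℕ, d ≡ 2 ^ i * 3 [MOD 7]) := by
  have h7 : d % 7 < 7 := Nat.mod_lt _ (by norm_num)
  have h0 : d % 7 ≠ 0 := by
    intro h
    have h1 : 7 ∣ d := Nat.dvd_of_mod_eq_zero h
    have h2 : 7 ∣ 1 := by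
      have := Nat.dvd_gcd h1 (dvd_refl 7)
      rwa [hc] at this
    omega
  have hcases : d % 7 = 1 ∨ d % 7 = 2 ∨ d % 7 = 3 ∨ d % 7 = 4 ∨ d % 7 = 5 ∨ d % 7 = 6 := by omega
  rcases hcases with h | h | h | h | h | h
  · exact Or.inl ⟨0, by unfold Nat.ModEq; omega⟩
  · exact Or.inl ⟨1, by unfold Nat.ModEq; omega⟩
  · exact Or.inr ⟨0, by unfold Nat.ModEq; omega⟩
  · exact Or.inl ⟨2, by unfold Nat.ModEq; omega⟩
  · exact Or.inr ⟨2, by unfold Nat.ModEq; omega⟩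
  · exact Or.inr ⟨1, by unfold Nat.ModEq; omega⟩

theorem B6_table : ∀ r < 63, Nat.gcd r 63 = 1 →
    (∃ i < 6, r = 2 ^ i % 63) ∨ (∃ i < 6, r = 2 ^ i * 5 % 63) ∨
      (∃ i < 6, r * 5 % 63 = 2 ^ i % 63) ∨
      (∃ j < 6, j ≠ 0 ∧ ∃ z < 41, (z + r * j) % 63 = 0 ∧ bw j + bw z ≤ 3) := by
  unfold bw
  decide +kernel

theorem base6 (d : ℕ) (hc : Nat.Coprime d 63) (hV : V 6 d) :
    (∃ i : ℕ, d ≡ 2 ^ i [MOD 63]) ∨ (∃ i : ℕ, d ≡ 2 ^ i * 5 [MOD 63]) ∨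
      (∃ i : ℕ, d * 5 ≡ 2 ^ i [MOD 63]) := by
  have hr : d % 63 < 63 := Nat.mod_lt _ (by norm_num)
  have hg : Nat.gcd (d % 63) 63 = 1 := by
    rw [← Nat.gcd_rec, Nat.gcd_comm]; exact hc
  rcases B6_table (d % 63) hr hg with ⟨i, _, h⟩ | ⟨i, _, h⟩ | ⟨i, _, h⟩ | ⟨j, hj6, hj0, z, _, hz, hb⟩
  · exact Or.inl ⟨i, h⟩
  · exact Or.inr (Or.inl ⟨i, h⟩)
  · refine Or.inr (Or.inr ⟨i, ?_⟩)
    unfold Nat.ModEq
    rw [← h, Nat.mod_mul_mod]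
  · exfalso
    have h1 : ¬ (2 ^ 6 - 1 ∣ j) := by
      intro hd
      have := Nat.le_of_dvd (Nat.pos_of_ne_zero hj0) hd
      omega
    have h2 : 2 ^ 6 - 1 ∣ z + d * j := by
      have h3 : (z + d * j) % 63 = 0 := by
        rw [← hz]
        exact (Nat.ModEq.add_left z ((Nat.mod_modEq d 63).symm.mul_right j))
      exact Nat.dvd_of_mod_eq_zero h3
    have h4 := hV j z h1 h2
    omega

end Pool.Agent.TV
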