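import Pool.Agent.Lib_helper65.TV.Defs

set_option autoImplicit false

namespace Pool.Agent.TV

theorem BRx_sign (z : ZMod 2) : (-1 : ℤ) ^ z.val = if z = 0 then 1 else -1 := by
  fin_cases z <;> simp <;> decide

theorem bridge (n : ℕ) (hn : 0 < n) (d : ℕ) (hd : 0 < d)
    (h3 : Set.ncard {v : ℤ | ∃ c : GaloisField 2 n, c ≠ 0 ∧
        v = ∑ᶠ x ∈ {x : GaloisField 2 n | x ≠ 0},
          (-1 : ℤ) ^ (Algebra.trace (ZMod 2) (GaloisField 2 n) (c * x - x ^ d)).val} = 3) :
    ∀ [Fintype (GaloisField 2 n)], Fintype.card (GaloisField 2 n) = 2 ^ n ∧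
      Set.ncard {v : ℤ | ∃ a : GaloisField 2 n, a ≠ 0 ∧ v = W (GaloisField 2 n) d a} = 3 := by
  intro inst
  classical
  have key : ∀ c : GaloisField 2 n, ∑ᶠ x ∈ {x : GaloisField 2 n | x ≠ 0},
      (-1 : ℤ) ^ (Algebra.trace (ZMod 2) (GaloisField 2 n) (c * x - x ^ d)).val =
      W (GaloisField 2 n) d c - 1 := by
    intro c
    have h1 : ∀ x : GaloisField 2 n,
        (-1 : ℤ) ^ (Algebra.trace (ZMod 2) (GaloisField 2 n) (c * x - x ^ d)).val =
        if Algebra.trace (ZMod 2) (GaloisField 2 n) (x ^ d + c * x) = 0 then 1 else -1 := by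
      intro x
      rw [BRx_sign, CharTwo.sub_eq_add, add_comm]
    simp only [h1]
    have h2 : ∑ᶠ x ∈ {x : GaloisField 2 n | x ≠ 0},
        (if Algebra.trace (ZMod 2) (GaloisField 2 n) (x ^ d + c * x) = 0 then (1 : ℤ) else -1) =
        ∑ x ∈ Finset.univ.filter (fun x : GaloisField 2 n => x ≠ 0),
        (if Algebra.trace (ZMod 2) (GaloisField 2 n) (x ^ d + c * x) = 0 then (1 : ℤ) else -1) := by
      rw [← finsum_mem_coe_finset]
      congr 1
      ext x
      simp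
    rw [h2]
    unfold W
    rw [← Finset.sum_filter_add_sum_filter_not Finset.univ (fun x : GaloisField 2 n => x ≠ 0)]
    have h3 : Finset.univ.filter (fun x : GaloisField 2 n => ¬ x ≠ 0) = {0} := by
      ext x; simp
    rw [h3, Finset.sum_singleton]
    simp [zero_pow hd.ne']
  refine ⟨?_, ?_⟩
  · rw [← Nat.card_eq_fintype_card]
    exact GaloisField.card 2 n hn.ne'
  · have hset : {v : ℤ | ∃ c : GaloisField 2 n, c ≠ 0 ∧
        v = ∑ᶠ x ∈ {x : GaloisField 2 n | x ≠ 0},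
          (-1 : ℤ) ^ (Algebra.trace (ZMod 2) (GaloisField 2 n) (c * x - x ^ d)).val} =
        (fun v : ℤ => v - 1) '' {v : ℤ | ∃ a : GaloisField 2 n, a ≠ 0 ∧
          v = W (GaloisField 2 n) d a} := by
      ext v
      constructor
      · rintro ⟨c, hc, hv⟩
        exact ⟨W (GaloisField 2 n) d c, ⟨c, hc, rfl⟩, by rw [hv, key]⟩
      · rintro ⟨w, ⟨c, hc, hw⟩, hv⟩
        exact ⟨c, hc, by rw [key, ← hv, hw]⟩
    rw [hset, Set.ncard_image_of_injective _ (fun a b h => by simpa using h)] at h3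
    exact h3

end Pool.Agent.TV
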