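import Pool.Agent.Lib_helper65.TV.Defs
import Pool.Agent.Lib_helper65.TVC.BWA

set_option autoImplicit false

namespace Pool.Agent.TV

theorem BWB_one : bw 1 = 1 := by
  have h := bw_two_mul_add 0 1 (by norm_num)
  rw [bw_zero] at h
  simpa using h

theorem BWB_aux (n : ℕ) : ∀ a b : ℕ, a + b ≤ n → bw (a + b) ≤ bw a + bw b := by
  induction n with
  | zero =>
    intro a b h
    have ha : a = 0 := by omega
    have hb : b = 0 := by omega
    rw [ha, hb]
    simp [bw_zero]
  | succ n ih =>
    intro a b h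
    rcases Nat.eq_zero_or_pos (a + b) with h0 | h0
    · exact ih a b (by omega)
    obtain ⟨a', ha'⟩ : ∃ a', a' = a / 2 := ⟨_, rfl⟩
    obtain ⟨r, hr⟩ : ∃ r, r = a % 2 := ⟨_, rfl⟩
    obtain ⟨b', hb'⟩ : ∃ b', b' = b / 2 := ⟨_, rfl⟩
    obtain ⟨s, hs⟩ : ∃ s, s = b % 2 := ⟨_, rfl⟩
    have ea : a = 2 * a' + r := by omega
    have eb : b = 2 * b' + s := by omega
    have hr2 : r < 2 := by omega
    have hs2 : s < 2 := by omega
    have h1 : bw a = bw a' + r := by rw [ea]; exact bw_two_mul_add a' r hr2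
    have h2 : bw b = bw b' + s := by rw [eb]; exact bw_two_mul_add b' s hs2
    have h3 : bw (a' + b') ≤ bw a' + bw b' := ih a' b' (by omega)
    rcases Nat.lt_or_ge (r + s) 2 with h4 | h4
    · have e : a + b = 2 * (a' + b') + (r + s) := by omega
      rw [e, bw_two_mul_add _ _ h4, h1, h2]
      omega
    · have e : a + b = 2 * (a' + b' + 1) + 0 := by omega
      have h5 := ih (a' + b') 1 (by omega)
      rw [BWB_one] at h5
      rw [e, bw_two_mul_add _ _ (by norm_num), h1, h2]
      omega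

theorem bw_add_le (a b : ℕ) : bw (a + b) ≤ bw a + bw b := BWB_aux (a + b) a b le_rfl

theorem bw_mod_le (n x : ℕ) (hn : 0 < n) : bw (x % (2 ^ n - 1)) ≤ bw x := by
  induction x using Nat.strong_induction_on with
  | _ x ih =>
    have h2 : 2 ≤ 2 ^ n := by
      calc 2 = 2 ^ 1 := by norm_num
        _ ≤ 2 ^ n := Nat.pow_le_pow_right (by norm_num) hn
    rcases Nat.lt_or_ge x (2 ^ n - 1) with h | h
    · rw [Nat.mod_eq_of_lt h]
    · obtain ⟨u, hu⟩ : ∃ u, u = x % 2 ^ n := ⟨_, rfl⟩
      obtain ⟨v, hv⟩ : ∃ v, v = x / 2 ^ n := ⟨_, rfl⟩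
      have hx : x = u + 2 ^ n * v := by
        rw [hu, hv]
        exact (Nat.mod_add_div x (2 ^ n)).symm
      have hu2 : u < 2 ^ n := by
        rw [hu]
        exact Nat.mod_lt _ (by omega)
      have hb : bw x = bw u + bw v := by
        rw [hx]
        exact bw_low_high n u v hu2
      rcases Nat.eq_zero_or_pos v with hv0 | hv0
      · have hx1 : x = 2 ^ n - 1 := by
          rw [hv0, mul_zero, add_zero] at hx
          omega
        rw [hx1, Nat.mod_self, bw_zero]
        exact Nat.zero_le _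
      · have h3 : 2 ^ n * v = (2 ^ n - 1) * v + v := by
          obtain ⟨m, hm⟩ : ∃ m, 2 ^ n = m + 1 := ⟨2 ^ n - 1, by omega⟩
          rw [hm, Nat.add_sub_cancel]
          ring
        have h4 : x % (2 ^ n - 1) = (u + v) % (2 ^ n - 1) := by
          have h5 : x = (u + v) + (2 ^ n - 1) * v := by rw [hx, h3]; ring
          rw [h5, Nat.add_mul_mod_self_left]
        have h6 : u + v < x := by
          have h7 : 0 < (2 ^ n - 1) * v := Nat.mul_pos (by omega) hv0
          omega
        rw [h4, hb]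
        exact le_trans (ih _ h6) (bw_add_le u v)

end Pool.Agent.TV
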