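import Pool.Agent.Lib_helper65.TV.Defs

set_option autoImplicit false

namespace Pool.Agent.TV

theorem gold_crt (h d g : ℕ) (hh : 0 < h) (h3 : d ≡ g [MOD 2 ^ (3 * h) - 1])
    (h2 : d ≡ g [MOD 2 ^ (2 * h) - 1]) : d ≡ g [MOD (2 ^ (3 * h) - 1) * (2 ^ h + 1)] := by
  obtain ⟨q, hq⟩ : ∃ q : ℤ, q = 2 ^ h := ⟨_, rfl⟩
  have hq2 : 2 ≤ q := by
    rw [hq]
    calc (2 : ℤ) = 2 ^ 1 := by norm_num
      _ ≤ 2 ^ h := pow_le_pow_right₀ (by norm_num) hh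
  have c3 : (((2 ^ (3 * h) - 1 : ℕ)) : ℤ) = q ^ 3 - 1 := by
    rw [Nat.cast_sub Nat.one_le_two_pow, hq]
    push_cast
    ring
  have c2 : (((2 ^ (2 * h) - 1 : ℕ)) : ℤ) = q ^ 2 - 1 := by
    rw [Nat.cast_sub Nat.one_le_two_pow, hq]
    push_cast
    ring
  rw [Nat.modEq_iff_dvd] at h3 h2 ⊢
  rw [c3] at h3
  rw [c2] at h2
  rw [Nat.cast_mul, c3]
  push_cast
  rw [← hq]
  obtain ⟨u, hu⟩ := h3
  rw [hu] at h2 ⊢
  apply mul_dvd_mul_left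
  have e1 : q ^ 2 - 1 = (q - 1) * (q + 1) := by ring
  have e2 : (q ^ 3 - 1) * u = (q - 1) * ((q ^ 2 + q + 1) * u) := by ring
  rw [e1, e2] at h2
  have h4 : q + 1 ∣ (q ^ 2 + q + 1) * u := (mul_dvd_mul_iff_left (by omega)).1 h2
  have h5 : IsCoprime (q + 1) (q ^ 2 + q + 1) := ⟨-q, 1, by ring⟩
  exact h5.dvd_of_dvd_mul_left h4

end Pool.Agent.TV
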