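import Pool.Agent.Lib_helper65.TV.Defs
import Pool.Agent.Lib_helper65.TVC.BWA

set_option autoImplicit false

namespace Pool.Agent.TV

theorem V_congr (n d d' : ℕ) (hV : V n d) (h : d ≡ d' [MOD 2 ^ n - 1]) : V n d' := by
  intro j z hj hz
  apply hV j z hj
  have h1 : z + d * j ≡ z + d' * j [MOD 2 ^ n - 1] := (h.mul_right j).add_left z
  exact (h1.dvd_iff dvd_rfl).2 hz

theorem EQV_cop (n i j : ℕ) (h : 2 ^ n - 1 ∣ 2 ^ i * j) : 2 ^ n - 1 ∣ j := by
  rcases Nat.eq_zero_or_pos n with hn | hn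
  · rw [hn, pow_zero, Nat.sub_self, zero_dvd_iff] at h ⊢
    rcases Nat.mul_eq_zero.1 h with h1 | h1
    · exact absurd h1 (pow_ne_zero i (by norm_num))
    · exact h1
  · have h2 : Nat.Coprime (2 ^ n - 1) (2 ^ i) := by
      apply Nat.Coprime.pow_right
      have h3 : 2 ∣ 2 ^ n := dvd_pow_self 2 hn.ne'
      have h4 : 0 < 2 ^ n := by positivity
      rw [Nat.coprime_comm, Nat.prime_two.coprime_iff_not_dvd]
      omega
    exact h2.dvd_of_dvd_mul_left h

theorem V_two_pow (n d i : ℕ) (hV : V n d) : V n (2 ^ i * d) := by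
  intro j z hj hz
  have h1 := hV (2 ^ i * j) z (fun h => hj (EQV_cop n i j h)) (by
    have e : z + d * (2 ^ i * j) = z + 2 ^ i * d * j := by ring
    rw [e]
    exact hz)
  rwa [bw_two_pow_mul] at h1

theorem V_inv (n d e : ℕ) (hV : V n d) (h : d * e ≡ 1 [MOD 2 ^ n - 1]) : V n e := by
  intro j z hj hz
  have h1 : ∀ k : ℕ, d * (k + e * j) ≡ d * k + j [MOD 2 ^ n - 1] := by
    intro k
    have e1 : d * (k + e * j) = d * k + d * e * j := by ring
    have e2 : d * k + j = d * k + 1 * j := by ring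
    rw [e1, e2]
    exact (h.mul_right j).add_left _
  have h2 : 2 ^ n - 1 ∣ j + d * z := by
    rw [add_comm]
    exact ((h1 z).dvd_iff dvd_rfl).1 (Dvd.dvd.mul_left hz d)
  have h3 : ¬ 2 ^ n - 1 ∣ z := by
    intro h4
    apply hj
    have h5 : 2 ^ n - 1 ∣ e * j := (Nat.dvd_add_right h4).1 hz
    have h6 := ((h1 0).dvd_iff (dvd_refl (2 ^ n - 1))).1 (by
      rw [zero_add]
      exact Dvd.dvd.mul_left h5 d)
    rwa [mul_zero, zero_add] at h6
  have h7 := hV z j h3 h2
  omega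

end Pool.Agent.TV
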