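import Pool.Agent.Lib_helper65.TV.Defs
import Pool.Agent.Lib_helper65.TVC.BWA
import Pool.Agent.Lib_helper65.TVC.BWB

set_option autoImplicit false

namespace Pool.Agent.TV

theorem e1_one : bw 1 = 1 := by
  have := bw_two_mul_add 0 1 (by norm_num)
  simpa [bw_zero] using this

theorem e1_ones (k : ℕ) : bw (2 ^ k - 1) = k := by
  have h := bw_compl k 0 (by positivity)
  rw [bw_zero, zero_add, Nat.sub_zero] at h
  exact h

theorem gold_e1 (h d : ℕ) (hh : 2 ≤ h)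
    (hd : d + 2 ^ h ≡ 2 ^ (4 * h) + 2 ^ (3 * h) + 2 ^ (2 * h) [MOD 2 ^ (6 * h) - 1]) :
    ¬ V (6 * h) d := by
  intro hV
  obtain ⟨g, rfl⟩ : ∃ g, h = g + 2 := ⟨h - 2, by omega⟩
  set q : ℕ := 2 ^ (g + 2) with hq
  have hq4 : q = 4 * 2 ^ g := by rw [hq, pow_add]; ring
  have hg1 : 1 ≤ 2 ^ g := Nat.one_le_two_pow
  have hq1 : 4 ≤ q := by omega
  have e2 : 2 ^ (2 * (g + 2)) = q ^ 2 := by rw [hq, pow_mul']
  have e3 : 2 ^ (3 * (g + 2)) = q ^ 3 := by rw [hq, pow_mul']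
  have e4 : 2 ^ (4 * (g + 2)) = q ^ 4 := by rw [hq, pow_mul']
  have e5 : 2 ^ (5 * (g + 2)) = q ^ 5 := by rw [hq, pow_mul']
  have e6 : 2 ^ (6 * (g + 2)) = q ^ 6 := by rw [hq, pow_mul']
  rw [e2, e3, e4, e6] at hd
  set j : ℕ := 1 + q * (2 * q + 1) with hj
  set z : ℕ := q ^ 5 * (q - 4) + (q ^ 4 * (q - 4) + (q - 3)) with hz
  have hq6 : 1 ≤ q ^ 6 := Nat.one_le_pow _ _ (by omega)
  -- weights
  have wj : bw j = 3 := by
    have h1 : bw (1 + 2 ^ (g + 2) * (2 * q + 1)) = bw 1 + bw (2 * q + 1) :=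
      bw_low_high (g + 2) 1 (2 * q + 1) (by rw [← hq]; omega)
    have h2 : bw (2 * q + 1) = bw q + 1 := bw_two_mul_add q 1 (by norm_num)
    have h3 : bw q = 1 := by
      have := bw_two_pow_mul (g + 2) 1
      rw [mul_one, e1_one] at this
      exact this
    rw [hj, hq]
    rw [hq] at h1 h2 h3
    rw [h1, e1_one, h2, h3]
  have w4 : bw (q - 4) = g := by
    have h1 : q - 4 = 2 ^ 2 * (2 ^ g - 1) := by omega
    rw [h1, bw_two_pow_mul, e1_ones]
  have w3 : bw (q - 3) = g + 1 := by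
    have h1 : q - 3 = 2 * (2 ^ 1 * (2 ^ g - 1)) + 1 := by omega
    rw [h1, bw_two_mul_add _ _ (by norm_num), bw_two_pow_mul, e1_ones]
  have wz : bw z ≤ g + (g + (g + 1)) := by
    have h1 := bw_add_le (q ^ 5 * (q - 4)) (q ^ 4 * (q - 4) + (q - 3))
    have h2 := bw_add_le (q ^ 4 * (q - 4)) (q - 3)
    have h3 : bw (q ^ 5 * (q - 4)) = g := by rw [← e5, bw_two_pow_mul, w4]
    have h4 : bw (q ^ 4 * (q - 4)) = g := by rw [← e4, bw_two_pow_mul, w4]
    rw [hz]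
    omega
  -- j is not divisible by M
  have hjM : ¬ (2 ^ (6 * (g + 2)) - 1 ∣ j) := by
    intro hdiv
    have h1 := Nat.le_of_dvd (by rw [hj]; omega) hdiv
    rw [e6] at h1
    have h2 : j < q ^ 6 - 1 := by
      have h3 : q * (2 * q + 1) + 2 < q ^ 6 := by
        have h4 : q ^ 6 = q * q * (q * q * q * q) := by ring
        have h5 : 4 * 4 * 4 * 4 ≤ q * q * q * q := by
          have : 4 * 4 ≤ q * q := Nat.mul_le_mul hq1 hq1
          calc 4 * 4 * 4 * 4 = (4 * 4) * (4 * 4) := by norm_num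
            _ ≤ (q * q) * (q * q) := Nat.mul_le_mul this this
            _ = q * q * q * q := by ring
        have h6 : q * q * 256 ≤ q * q * (q * q * q * q) := Nat.mul_le_mul_left _ (by omega)
        rw [h4]
        nlinarith
      rw [hj]
      omega
    omega
  -- the congruence
  have hcong : 2 ^ (6 * (g + 2)) - 1 ∣ z + d * j := by
    rw [e6]
    have h1 : ((q ^ 6 - 1 : ℕ) : ℤ) ∣ ((q ^ 4 + q ^ 3 + q ^ 2 : ℕ) : ℤ) - ((d + q : ℕ) : ℤ) :=
      (Nat.modEq_iff_dvd.mp hd)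
    obtain ⟨k, hk⟩ := h1
    have hz' : (z : ℤ) = (q : ℤ) ^ 5 * (q - 4) + ((q : ℤ) ^ 4 * (q - 4) + (q - 3)) := by
      rw [hz]
      push_cast [Nat.cast_sub hq1, Nat.cast_sub (by omega : 3 ≤ q)]
      ring
    have hM : ((q ^ 6 - 1 : ℕ) : ℤ) = (q : ℤ) ^ 6 - 1 := by
      rw [Nat.cast_sub hq6]
      push_cast
      ring
    have h2 : ((q ^ 6 - 1 : ℕ) : ℤ) ∣ ((z + d * j : ℕ) : ℤ) := by
      refine ⟨3 - k * j, ?_⟩
      have hk2 : (d : ℤ) = (q : ℤ) ^ 4 + q ^ 3 + q ^ 2 - q - ((q : ℤ) ^ 6 - 1) * k := by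
        rw [hM] at hk
        push_cast at hk
        linarith
      rw [hM]
      push_cast
      rw [hz', hk2, hj]
      push_cast
      ring
    exact_mod_cast h2
  have h1 := hV j z hjM hcong
  omega

end Pool.Agent.TV
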