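import Pool.Agent.Lib_helper65.TV.Defs
import Pool.Agent.Lib_helper65.TVC.AU
import Pool.Agent.Lib_helper65.TVC.E1
import Pool.Agent.Lib_helper65.TVC.BWA
import Pool.Agent.Lib_helper65.TVC.BWB

set_option autoImplicit false

/-!
# Block GL of MP_85e36e_co: lifts of the Gold exponent
-/
-- NEEDS: aut gold_e1 bw_add_le bw_two_pow_mul

namespace Pool.Agent.TV

theorem GL_bw_le (h J0 J1 J2 J3 J4 J5 : ℕ) :
    bw (J0 + 2 ^ h * (J1 + 2 ^ h * (J2 + 2 ^ h * (J3 + 2 ^ h * (J4 + 2 ^ h * J5))))) ≤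
      bw J0 + bw J1 + bw J2 + bw J3 + bw J4 + bw J5 := by
  have hs : ∀ a b : ℕ, bw (a + 2 ^ h * b) ≤ bw a + bw b := fun a b => by
    have h1 := bw_add_le a (2 ^ h * b)
    rw [bw_two_pow_mul] at h1
    exact h1
  have h1 := hs J0 (J1 + 2 ^ h * (J2 + 2 ^ h * (J3 + 2 ^ h * (J4 + 2 ^ h * J5))))
  have h2 := hs J1 (J2 + 2 ^ h * (J3 + 2 ^ h * (J4 + 2 ^ h * J5)))
  have h3 := hs J2 (J3 + 2 ^ h * (J4 + 2 ^ h * J5))
  have h4 := hs J3 (J4 + 2 ^ h * J5)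
  have h5 := hs J4 J5
  omega

/-- `j = 1` modulo `N` -/
theorem GL_mod (q j J0 J1 J2 J3 J4 J5 D : ℤ)
    (hj : j = J0 + q * (J1 + q * (J2 + q * (J3 + q * (J4 + q * J5)))))
    (d1 : J2 - J5 = D) (d2 : J4 - J1 = D) (d3 : J0 - J3 = D + 1) :
    j = 1 + (q ^ 2 - q + 1) * (D + (q + 1) * (J3 + q * J4 + q ^ 2 * J5)) := by
  have f1 : J2 = D + J5 := by linarith
  have f2 : J1 = J4 - D := by linarith
  have f3 : J0 = D + 1 + J3 := by linarith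
  rw [hj, f1, f2, f3]
  ring

/-- the block identity -/
theorem GL_block (q z j W W0 W1 W2 J0 J1 J2 J3 J4 J5 Z0 Z1 Z2 Z3 Z4 Z5 : ℤ)
    (hj : j = J0 + q * (J1 + q * (J2 + q * (J3 + q * (J4 + q * J5)))))
    (hz : z = Z0 + q * (Z1 + q * (Z2 + q * (Z3 + q * (Z4 + q * Z5)))))
    (hW : W = W0 + q * W1 + q ^ 2 * W2)
    (c0 : J0 + J4 + Z0 + W0 + 1 = q) (c1 : J1 + J5 + Z1 + W1 + 1 = q)
    (c2 : J2 + J0 + Z2 + W2 + 1 = q) (c3 : J3 + J1 + Z3 = W0) (c4 : J4 + J2 + Z4 = W1)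
    (c5 : J5 + J3 + Z5 = W2) :
    z + (q ^ 2 + 1) * j = (q ^ 3 - 1) * (W + 1) + (J4 + J5 * q) * (q ^ 6 - 1) := by
  have k0 : Z0 = q - 1 - W0 - J0 - J4 := by linarith
  have k1 : Z1 = q - 1 - W1 - J1 - J5 := by linarith
  have k2 : Z2 = q - 1 - W2 - J2 - J0 := by linarith
  have k3 : Z3 = W0 - J3 - J1 := by linarith
  have k4 : Z4 = W1 - J4 - J2 := by linarith
  have k5 : Z5 = W2 - J5 - J3 := by linarith
  rw [hz, hj, hW, k0, k1, k2, k3, k4, k5]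
  ring

/-- the main congruence -/
theorem GL_main (q d z j W t e k m J4 J5 : ℤ)
    (he : d = q ^ 2 + 1 + (q ^ 3 - 1) * (q + 1) * e)
    (g1 : z + (q ^ 2 + 1) * j = (q ^ 3 - 1) * (W + 1) + (J4 + J5 * q) * (q ^ 6 - 1))
    (hW : W + 1 = (q + 1) * t) (hk : t + e = (q ^ 2 - q + 1) * k)
    (hm : j = 1 + (q ^ 2 - q + 1) * m) :
    z + d * j = (q ^ 6 - 1) * (k + e * m + J4 + J5 * q) := by
  have g2 : t = (q ^ 2 - q + 1) * k - e := by linarith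
  calc z + d * j = (z + (q ^ 2 + 1) * j) + (q ^ 3 - 1) * (q + 1) * e * j := by rw [he]; ring
    _ = (q ^ 3 - 1) * ((q + 1) * t) + (J4 + J5 * q) * (q ^ 6 - 1)
        + (q ^ 3 - 1) * (q + 1) * e * (1 + (q ^ 2 - q + 1) * m) := by rw [g1, hW, hm]
    _ = _ := by rw [g2]; ring

theorem gold_lift (h d : ℕ) (hh : 2 ≤ h) (hV : V (6 * h) d)
    (hd : d ≡ 2 ^ (2 * h) + 1 [MOD (2 ^ (3 * h) - 1) * (2 ^ h + 1)]) :
    d ≡ 2 ^ (2 * h) + 1 [MOD 2 ^ (6 * h) - 1] := by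
  by_contra hne
  obtain ⟨q, hq⟩ : ∃ q : ℕ, q = 2 ^ h := ⟨_, rfl⟩
  have hq4 : 4 ≤ q := by
    rw [hq]
    calc 4 = 2 ^ 2 := by norm_num
      _ ≤ 2 ^ h := Nat.pow_le_pow_right (by norm_num) hh
  have e2 : 2 ^ (2 * h) = q ^ 2 := by rw [hq, ← pow_mul, mul_comm]
  have e3 : 2 ^ (3 * h) = q ^ 3 := by rw [hq, ← pow_mul, mul_comm]
  have e4 : 2 ^ (4 * h) = q ^ 4 := by rw [hq, ← pow_mul, mul_comm]
  have e6 : 2 ^ (6 * h) = q ^ 6 := by rw [hq, ← pow_mul, mul_comm]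
  have hq1 : 1 ≤ q := by omega
  have hq3 : 1 ≤ q ^ 3 := Nat.one_le_pow _ _ hq1
  have hq6 : 1 ≤ q ^ 6 := Nat.one_le_pow _ _ hq1
  have hc3 : ((q ^ 3 - 1 : ℕ) : ℤ) = (q : ℤ) ^ 3 - 1 := by
    rw [Nat.cast_sub hq3]; push_cast; ring
  have hc6 : ((q ^ 6 - 1 : ℕ) : ℤ) = (q : ℤ) ^ 6 - 1 := by
    rw [Nat.cast_sub hq6]; push_cast; ring
  have hqz : (4 : ℤ) ≤ q := by exact_mod_cast hq4
  have hd' := hd
  rw [e2, e3, ← hq] at hd'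
  have hne' := hne
  rw [e2, e6] at hne'
  obtain ⟨e, he⟩ : ∃ e : ℤ, (d : ℤ) = (q : ℤ) ^ 2 + 1 + ((q : ℤ) ^ 3 - 1) * (q + 1) * e := by
    obtain ⟨e, he⟩ := Nat.modEq_iff_dvd.1 hd'.symm
    refine ⟨e, ?_⟩
    rw [Nat.cast_mul, hc3] at he
    push_cast at he
    linarith
  have hNe : ¬ ((q : ℤ) ^ 2 - q + 1 ∣ e) := by
    rintro ⟨k, hk⟩
    apply hne'
    refine (Nat.modEq_iff_dvd.2 ⟨k, ?_⟩).symm
    rw [hc6, he, hk]
    push_cast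
    ring
  have hN1 : (1 : ℤ) < (q : ℤ) ^ 2 - q + 1 := by nlinarith
  have hNpos : (0 : ℤ) < (q : ℤ) ^ 2 - q + 1 := by linarith
  obtain ⟨t, ht1, ht2, htN⟩ : ∃ t : ℕ, 1 ≤ t ∧ (t : ℤ) ≤ (q : ℤ) ^ 2 - q ∧
      ((q : ℤ) ^ 2 - q + 1 ∣ t + e) := by
    have h0 : 0 ≤ (-e) % ((q : ℤ) ^ 2 - q + 1) := Int.emod_nonneg _ hNpos.ne'
    have h1 : (-e) % ((q : ℤ) ^ 2 - q + 1) < (q : ℤ) ^ 2 - q + 1 := Int.emod_lt_of_pos _ hNpos
    have h2 : (((-e) % ((q : ℤ) ^ 2 - q + 1)).toNat : ℤ) = (-e) % ((q : ℤ) ^ 2 - q + 1) :=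
      Int.toNat_of_nonneg h0
    have h3 : ((q : ℤ) ^ 2 - q + 1) ∣ (-e) % ((q : ℤ) ^ 2 - q + 1) + e := by
      refine ⟨-((-e) / ((q : ℤ) ^ 2 - q + 1)), ?_⟩
      have := Int.emod_add_mul_ediv (-e) ((q : ℤ) ^ 2 - q + 1)
      linarith
    refine ⟨((-e) % ((q : ℤ) ^ 2 - q + 1)).toNat, ?_, ?_, ?_⟩
    · by_contra hc
      have h4 : (-e) % ((q : ℤ) ^ 2 - q + 1) = 0 := by
        rw [← h2]
        have : ((-e) % ((q : ℤ) ^ 2 - q + 1)).toNat = 0 := by omega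
        rw [this]; rfl
      rw [h4, zero_add] at h3
      exact hNe h3
    · rw [h2]; linarith
    · rw [h2]; exact h3
  obtain ⟨W, hW⟩ : ∃ W : ℕ, W + 1 = (q + 1) * t := by
    refine ⟨(q + 1) * t - 1, ?_⟩
    have : 1 ≤ (q + 1) * t := Nat.one_le_iff_ne_zero.2 (by positivity)
    omega
  have hWz : (W : ℤ) + 1 = (q + 1) * t := by exact_mod_cast hW
  have hWlt : W < q ^ 3 := by
    have h1 : (W : ℤ) + 1 ≤ (q : ℤ) ^ 3 - q := by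
      rw [hWz]
      calc ((q : ℤ) + 1) * t ≤ (q + 1) * ((q : ℤ) ^ 2 - q) :=
            mul_le_mul_of_nonneg_left ht2 (by linarith)
        _ = (q : ℤ) ^ 3 - q := by ring
    have h2 : (W : ℤ) < (q : ℤ) ^ 3 := by linarith
    exact_mod_cast h2
  obtain ⟨W0, W1, W2, hW0, hW1, hW2, hWe⟩ : ∃ W0 W1 W2 : ℕ, W0 < q ∧ W1 < q ∧ W2 < q ∧
      W = W0 + q * W1 + q ^ 2 * W2 := by
    refine ⟨W % q, W / q % q, W / q / q, Nat.mod_lt _ hq1, Nat.mod_lt _ hq1, ?_, ?_⟩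
    · rw [Nat.div_div_eq_div_mul]
      apply Nat.div_lt_of_lt_mul
      calc W < q ^ 3 := hWlt
        _ = q * q * q := by ring
    · have h1 := Nat.mod_add_div W q
      have h2 := Nat.mod_add_div (W / q) q
      calc W = W % q + q * (W / q) := h1.symm
        _ = W % q + q * (W / q % q + q * (W / q / q)) := by rw [h2]
        _ = _ := by ring
  have hWez : (W : ℤ) = W0 + q * W1 + q ^ 2 * W2 := by exact_mod_cast hWe
  by_cases hexc : W0 + 1 = q ∧ W1 + 2 = q ∧ W2 + 1 = q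
  · obtain ⟨a1, a2, a3⟩ := hexc
    have b1 : (W0 : ℤ) = q - 1 := by
      have : (W0 : ℤ) + 1 = q := by exact_mod_cast a1
      linarith
    have b2 : (W1 : ℤ) = q - 2 := by
      have : (W1 : ℤ) + 2 = q := by exact_mod_cast a2
      linarith
    have b3 : (W2 : ℤ) = q - 1 := by
      have : (W2 : ℤ) + 1 = q := by exact_mod_cast a3
      linarith
    have ht : (t : ℤ) = (q : ℤ) ^ 2 - q := by
      have h1 : ((q : ℤ) + 1) * t = (q + 1) * ((q : ℤ) ^ 2 - q) := by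
        rw [← hWz, hWez, b1, b2, b3]
        ring
      have h2 : ((q : ℤ) + 1) ≠ 0 := by linarith
      exact mul_left_cancel₀ h2 h1
    obtain ⟨k, hk⟩ := htN
    have he1 : e = 1 + ((q : ℤ) ^ 2 - q + 1) * (k - 1) := by
      rw [ht] at hk
      linarith
    refine gold_e1 h d hh ?_ hV
    rw [e2, e3, e4, e6, ← hq]
    refine (Nat.modEq_iff_dvd.2 ⟨k - 1, ?_⟩).symm
    rw [hc6]
    push_cast
    rw [he, he1]
    ring
  · have hdiv : 2 ^ h + 1 ∣ W0 + 2 ^ h * W1 + 2 ^ (2 * h) * W2 + 1 := by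
      rw [e2, ← hq, ← hWe, hW]
      exact Dvd.intro _ rfl
    obtain ⟨J0, J1, J2, J3, J4, J5, Z0, Z1, Z2, Z3, Z4, Z5, D, c0, c1, c2, c3, c4, c5, d1, d2, d3,
      hbw⟩ := aut h W0 W1 W2 (hq ▸ hW0) (hq ▸ hW1) (hq ▸ hW2) hdiv (by rw [← hq]; exact hexc)
    rw [← hq] at c0 c1 c2
    obtain ⟨j, hj⟩ : ∃ j : ℕ,
        j = J0 + 2 ^ h * (J1 + 2 ^ h * (J2 + 2 ^ h * (J3 + 2 ^ h * (J4 + 2 ^ h * J5)))) :=
      ⟨_, rfl⟩
    obtain ⟨z, hz⟩ : ∃ z : ℕ,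
        z = Z0 + 2 ^ h * (Z1 + 2 ^ h * (Z2 + 2 ^ h * (Z3 + 2 ^ h * (Z4 + 2 ^ h * Z5)))) :=
      ⟨_, rfl⟩
    have hbj : bw j ≤ bw J0 + bw J1 + bw J2 + bw J3 + bw J4 + bw J5 := by
      rw [hj]; exact GL_bw_le h _ _ _ _ _ _
    have hbz : bw z ≤ bw Z0 + bw Z1 + bw Z2 + bw Z3 + bw Z4 + bw Z5 := by
      rw [hz]; exact GL_bw_le h _ _ _ _ _ _
    rw [← hq] at hj hz
    have hjz : (j : ℤ) = J0 + q * (J1 + q * (J2 + q * (J3 + q * (J4 + q * J5)))) := by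
      exact_mod_cast hj
    have hzz : (z : ℤ) = Z0 + q * (Z1 + q * (Z2 + q * (Z3 + q * (Z4 + q * Z5)))) := by
      exact_mod_cast hz
    obtain ⟨m, hm⟩ : ∃ m : ℤ, (j : ℤ) = 1 + ((q : ℤ) ^ 2 - q + 1) * m :=
      ⟨_, GL_mod q j J0 J1 J2 J3 J4 J5 D hjz d1 d2 d3⟩
    obtain ⟨k, hk⟩ := htN
    have g1 := GL_block q z j W W0 W1 W2 J0 J1 J2 J3 J4 J5 Z0 Z1 Z2 Z3 Z4 Z5 hjz hzz hWez
      (by exact_mod_cast c0) (by exact_mod_cast c1) (by exact_mod_cast c2)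
      (by exact_mod_cast c3) (by exact_mod_cast c4) (by exact_mod_cast c5)
    have hmain := GL_main q d z j W t e k m J4 J5 he g1 hWz hk hm
    have hdv : 2 ^ (6 * h) - 1 ∣ z + d * j := by
      rw [e6]
      apply Int.natCast_dvd_natCast.1
      rw [hc6]
      push_cast
      rw [hmain]
      exact Dvd.intro _ rfl
    have hjn : ¬ (2 ^ (6 * h) - 1 ∣ j) := by
      rw [e6]
      intro hc
      have h1 : ((q ^ 6 - 1 : ℕ) : ℤ) ∣ (j : ℤ) := Int.natCast_dvd_natCast.2 hc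
      rw [hc6] at h1
      have h2 : ((q : ℤ) ^ 2 - q + 1) ∣ (q : ℤ) ^ 6 - 1 :=
        ⟨((q : ℤ) ^ 3 - 1) * (q + 1), by ring⟩
      have h3 : ((q : ℤ) ^ 2 - q + 1) ∣ 1 := by
        have h4 := dvd_sub (h2.trans h1) (Dvd.intro m rfl : ((q : ℤ) ^ 2 - q + 1) ∣
          ((q : ℤ) ^ 2 - q + 1) * m)
        have h5 : (j : ℤ) - ((q : ℤ) ^ 2 - q + 1) * m = 1 := by linarith
        rwa [h5] at h4
      exact absurd (Int.le_of_dvd one_pos h3) (not_le.2 hN1)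
    have hfin := hV j z hjn hdv
    omega

end Pool.Agent.TV
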