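import Pool.Agent.Lib_helper65.TV.Defs
import Pool.Agent.Lib_helper65.TVC.BWA

/-! TV, block NH (helper29). Cites bw_zero, bw_two_mul_add, bw_two_pow_mul, bw_low_high, bw_compl. -/

set_option autoImplicit false

namespace Pool.Agent.TV

theorem NH_bw_one : bw 1 = 1 := by
  have h := bw_two_mul_add 0 1 (by norm_num)
  rw [bw_zero] at h
  simpa using h

theorem NH_bw_two_pow (r : ℕ) : bw (2 ^ r) = 1 := by
  have h := bw_two_pow_mul r 1
  rw [mul_one, NH_bw_one] at h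
  exact h

theorem NH_bw_ones (r : ℕ) : bw (2 ^ r - 1) = r := by
  have h := bw_compl r 0 (by positivity)
  rw [bw_zero] at h
  simpa using h

theorem NH_trailing : ∀ (m W : ℕ), W + 1 < 2 ^ m →
    ∃ r w : ℕ, r < m ∧ W + 1 = 2 ^ r + 2 ^ (r + 1) * w := by
  intro m
  induction m with
  | zero => intro W h; simp at h
  | succ m ih =>
    intro W h
    rcases Nat.even_or_odd' W with ⟨k, hk | hk⟩
    · exact ⟨0, k, by omega, by rw [hk]; ring⟩
    · have h1 : k + 1 < 2 ^ m := by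
        rw [pow_succ] at h
        omega
      obtain ⟨r, w, hr, hw⟩ := ih k h1
      refine ⟨r + 1, w, by omega, ?_⟩
      have h2 : W + 1 = 2 * (k + 1) := by omega
      rw [h2, hw]
      ring

theorem niho (m d : ℕ) (hm : 0 < m) (hV : V (2 * m) d) (h1 : d ≡ 1 [MOD 2 ^ m - 1]) :
    d ≡ 1 [MOD 2 ^ (2 * m) - 1] ∨ d ≡ 2 ^ m [MOD 2 ^ (2 * m) - 1] := by
  have hQ2 : 2 ≤ 2 ^ m := by
    calc 2 = 2 ^ 1 := by norm_num
      _ ≤ 2 ^ m := Nat.pow_le_pow_right (by norm_num) hm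
  have hM : 1 ≤ 2 ^ (2 * m) := Nat.one_le_two_pow
  have hMz : ((2 ^ (2 * m) - 1 : ℕ) : ℤ) = ((2 : ℤ) ^ m - 1) * ((2 : ℤ) ^ m + 1) := by
    rw [Nat.cast_sub hM]
    push_cast
    ring
  have hQz : ((2 ^ m - 1 : ℕ) : ℤ) = (2 : ℤ) ^ m - 1 := by
    rw [Nat.cast_sub (by omega)]
    push_cast
    ring
  obtain ⟨e, he⟩ : ((2 : ℤ) ^ m - 1) ∣ (d : ℤ) - 1 := by
    have h2 := (Nat.modEq_iff_dvd.mp h1.symm)
    rw [hQz] at h2
    push_cast at h2
    exact h2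
  set Q : ℤ := (2 : ℤ) ^ m with hQ
  have hQ2' : (2 : ℤ) ≤ Q := by
    rw [hQ]
    exact_mod_cast hQ2
  obtain ⟨t, ht0, htQ, f, hf⟩ : ∃ t : ℤ, 0 ≤ t ∧ t < Q + 1 ∧ ∃ f : ℤ, t + e = (Q + 1) * f := by
    refine ⟨(-e) % (Q + 1), Int.emod_nonneg _ (by linarith), Int.emod_lt_of_pos _ (by linarith),
      -((-e) / (Q + 1)), ?_⟩
    have := Int.emod_add_mul_ediv (-e) (Q + 1)
    linarith
  by_cases ht : t = 0
  · left
    apply Nat.ModEq.symm
    rw [Nat.modEq_iff_dvd, hMz]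
    refine ⟨f, ?_⟩
    rw [ht, zero_add] at hf
    push_cast
    rw [he, hf]
    ring
  by_cases ht' : t = Q
  · right
    apply Nat.ModEq.symm
    rw [Nat.modEq_iff_dvd, hMz]
    refine ⟨f - 1, ?_⟩
    push_cast
    rw [← hQ]
    have h3 : (d : ℤ) = 1 + (Q - 1) * e := by linarith
    have h4 : e = (Q + 1) * f - Q := by linarith
    rw [h3, h4]
    ring
  exfalso
  obtain ⟨W, hW⟩ : ∃ W : ℕ, (W : ℤ) + 1 = t := ⟨(t - 1).toNat, by
    rw [Int.toNat_of_nonneg (by omega)]; ring⟩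
  have hWlt : W + 1 < 2 ^ m := by
    have h3 : (W : ℤ) + 1 < Q := by
      rw [hW]
      omega
    rw [hQ] at h3
    exact_mod_cast h3
  obtain ⟨r, w, hr, hw⟩ := NH_trailing m W hWlt
  have hpr : 1 ≤ 2 ^ r := Nat.one_le_two_pow
  have hrm : 2 ^ r < 2 ^ m := Nat.pow_lt_pow_right (by norm_num) hr
  -- W + 2^r < 2^m
  have hsum : 2 ^ (r + 1) * (w + 1) ≤ 2 ^ m := by
    have h3 : 2 ^ m = 2 ^ (r + 1) * 2 ^ (m - (r + 1)) := by
      rw [← pow_add]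
      congr 1
      omega
    rw [h3]
    apply Nat.mul_le_mul_left
    have h4 : 2 ^ (r + 1) * w < 2 ^ (r + 1) * 2 ^ (m - (r + 1)) := by
      rw [← h3]
      omega
    exact Nat.lt_of_mul_lt_mul_left h4
  have hsum' : 2 ^ (r + 1) * w + 2 ^ r + 2 ^ r ≤ 2 ^ m := by
    calc 2 ^ (r + 1) * w + 2 ^ r + 2 ^ r = 2 ^ (r + 1) * (w + 1) := by ring
      _ ≤ 2 ^ m := hsum
  have hp1 : 2 ^ (r + 1) = 2 ^ r + 2 ^ r := by ring
  -- the two numbers
  obtain ⟨u, hu⟩ : ∃ u : ℕ, u + (W + 2 ^ r) + 1 = 2 ^ m :=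
    ⟨2 ^ m - (W + 2 ^ r) - 1, by omega⟩
  obtain ⟨s, hs⟩ : ∃ s : ℕ, s + 1 = 2 ^ r := ⟨2 ^ r - 1, by omega⟩
  have hbj : bw (2 ^ r + 2 ^ m * s) = 1 + r := by
    rw [bw_low_high m (2 ^ r) s hrm, NH_bw_two_pow]
    have : s = 2 ^ r - 1 := by omega
    rw [this, NH_bw_ones]
  have hbW : bw (W + 2 ^ r) = r + 1 + bw w := by
    have h3 : W + 2 ^ r = (2 ^ (r + 1) - 1) + 2 ^ (r + 1) * w := by omega
    rw [h3, bw_low_high (r + 1) (2 ^ (r + 1) - 1) w (by omega), NH_bw_ones]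
  have hbu : bw (W + 2 ^ r) + bw u = m := by
    have h3 := bw_compl m (W + 2 ^ r) (by omega)
    have h4 : 2 ^ m - 1 - (W + 2 ^ r) = u := by omega
    rw [h4] at h3
    exact h3
  have hbz : bw (u + 2 ^ m * (2 ^ (r + 1) * w)) = bw u + bw w := by
    rw [bw_low_high m u _ (by omega), bw_two_pow_mul]
  have huz : (u : ℤ) + (W + 2 ^ r) + 1 = Q := by
    rw [hQ]
    exact_mod_cast hu
  have hsz : (s : ℤ) + 1 = 2 ^ r := by exact_mod_cast hs
  have hwz : (W : ℤ) + 1 = 2 ^ r + 2 ^ (r + 1) * w := by exact_mod_cast hw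
  have hj : ¬ (2 ^ (2 * m) - 1 ∣ 2 ^ r + 2 ^ m * s) := by
    intro hdv
    have h3 : ((2 ^ (2 * m) - 1 : ℕ) : ℤ) ∣ ((2 ^ r + 2 ^ m * s : ℕ) : ℤ) := by
      exact_mod_cast hdv
    rw [hMz] at h3
    push_cast at h3
    rw [← hQ] at h3
    have h4 : (Q + 1) ∣ (2 ^ r + Q * s : ℤ) := (Dvd.intro_left _ rfl).trans h3
    have h5 : (2 ^ r + Q * s : ℤ) = (Q + 1) * s + 1 := by
      rw [← hsz]; ring
    rw [h5] at h4
    have h6 : (Q + 1) ∣ (1 : ℤ) := by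
      have := dvd_sub h4 (Dvd.intro (s : ℤ) (rfl : (Q + 1) * (s : ℤ) = (Q + 1) * s))
      simpa using this
    have h7 := Int.le_of_dvd (by norm_num) h6
    linarith
  have hz : 2 ^ (2 * m) - 1 ∣ (u + 2 ^ m * (2 ^ (r + 1) * w)) + d * (2 ^ r + 2 ^ m * s) := by
    have h3 : ((2 ^ (2 * m) - 1 : ℕ) : ℤ) ∣
        (((u + 2 ^ m * (2 ^ (r + 1) * w)) + d * (2 ^ r + 2 ^ m * s) : ℕ) : ℤ) := by
      rw [hMz]
      push_cast
      rw [← hQ]
      have hd' : (d : ℤ) = 1 + (Q - 1) * e := by linarith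
      have he' : e = (Q + 1) * f - (W + 1) := by linarith
      refine ⟨f + e * s, ?_⟩
      have hu' : (u : ℤ) = Q - 1 - W - 2 ^ r := by linarith
      have hw' : (2 ^ (r + 1) * w : ℤ) = W + 1 - 2 ^ r := by linarith
      have hs' : (2 ^ r : ℤ) = s + 1 := by linarith
      rw [hw', hu', hd', hs']
      have hf' : (Q + 1) * f = W + 1 + e := by linarith
      linear_combination (Q - 1) * (-1 : ℤ) * hf'
    exact_mod_cast h3
  have h5 := hV _ _ hj hz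
  omega

end Pool.Agent.TV
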