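import Pool.Agent.Lib_helper65.TV.Defs
import Pool.Agent.Lib_helper65.TVC.BWA
import Pool.Agent.Lib_helper65.TVC.BWB

set_option autoImplicit false

namespace Pool.Agent.TV

/-- the repunit `sum_{t<k} 2^(m t)` -/
def VD_R (m : ℕ) : ℕ → ℕ
  | 0 => 0
  | k + 1 => VD_R m k + 2 ^ (m * k)

theorem VD_R_mul (m k : ℕ) : VD_R m k * (2 ^ m - 1) = 2 ^ (m * k) - 1 := by
  have h2 : 0 < 2 ^ m := by positivity
  obtain ⟨a, ha⟩ : ∃ a, 2 ^ m = a + 1 := ⟨2 ^ m - 1, by omega⟩
  rw [ha, Nat.add_sub_cancel]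
  induction k with
  | zero => simp [VD_R]
  | succ k ih =>
    rw [VD_R, add_mul, ih, Nat.mul_succ, pow_add, ha]
    have h3 : 0 < 2 ^ (m * k) := by positivity
    have h4 : 2 ^ (m * k) * (a + 1) = 2 ^ (m * k) * a + 2 ^ (m * k) := by ring
    rw [h4]
    omega

theorem VD_bw (m k x : ℕ) : bw (VD_R m k * x) ≤ k * bw x := by
  induction k with
  | zero => simp [VD_R, bw_zero]
  | succ k ih =>
    rw [VD_R, add_mul]
    calc bw (VD_R m k * x + 2 ^ (m * k) * x) ≤ bw (VD_R m k * x) + bw (2 ^ (m * k) * x) :=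
          bw_add_le _ _
      _ ≤ k * bw x + bw x := by
          rw [bw_two_pow_mul]
          exact Nat.add_le_add_right ih _
      _ = (k + 1) * bw x := by ring

theorem V_dvd (n m d : ℕ) (hn : 0 < n) (hm : m ∣ n) (hV : V n d) : V m d := by
  obtain ⟨k, hk⟩ := hm
  have hk0 : 0 < k := by
    rcases Nat.eq_zero_or_pos k with h | h
    · rw [h, mul_zero] at hk
      omega
    · exact h
  intro j z hj hz
  have hR : 0 < VD_R m k := by
    obtain ⟨l, hl⟩ : ∃ l, k = l + 1 := ⟨k - 1, by omega⟩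
    rw [hl, VD_R]
    have : 0 < 2 ^ (m * l) := by positivity
    omega
  have h1 := VD_R_mul m k
  rw [← hk] at h1
  have h2 := hV (VD_R m k * j) (VD_R m k * z) (by
    intro h
    rw [← h1] at h
    exact hj (Nat.dvd_of_mul_dvd_mul_left hR h)) (by
    rw [← h1]
    have e : VD_R m k * z + d * (VD_R m k * j) = VD_R m k * (z + d * j) := by ring
    rw [e]
    exact Nat.mul_dvd_mul_left _ hz)
  have h3 := VD_bw m k j
  have h4 := VD_bw m k z
  rw [hk] at h2
  have h5 : k * m < k * (2 * (bw j + bw z)) := by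
    calc k * m = m * k := by ring
      _ < 2 * (bw (VD_R m k * j) + bw (VD_R m k * z)) := h2
      _ ≤ 2 * (k * bw j + k * bw z) := by omega
      _ = k * (2 * (bw j + bw z)) := by ring
  exact Nat.lt_of_mul_lt_mul_left h5

end Pool.Agent.TV
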