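import Pool.Agent.Lib_helper65.TV.Defs
import Pool.Agent.Lib_helper65.TVC.EQV
import Pool.Agent.Lib_helper65.TVC.VD
import Pool.Agent.Lib_helper65.TVC.NH

/-! TV, block NP (helper29). Cites V_two_pow, V_dvd, niho. -/

set_option autoImplicit false

namespace Pool.Agent.TV

theorem NP_pow_modEq_one (n k : ℕ) : 2 ^ (n * k) ≡ 1 [MOD 2 ^ n - 1] := by
  have h1 : 2 ^ n ≡ 1 [MOD 2 ^ n - 1] := by
    apply Nat.ModEq.symm
    rw [Nat.modEq_iff_dvd' Nat.one_le_two_pow]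
  have h2 := h1.pow k
  rw [one_pow, ← pow_mul] at h2
  exact h2

theorem niho' (m d i : ℕ) (hm : 0 < m) (hV : V (2 * m) d) (h1 : d ≡ 2 ^ i [MOD 2 ^ m - 1]) :
    ∃ i' : ℕ, d ≡ 2 ^ i' [MOD 2 ^ (2 * m) - 1] := by
  obtain ⟨k, hk⟩ : ∃ k : ℕ, k + i = m * i :=
    ⟨m * i - i, Nat.sub_add_cancel (Nat.le_mul_of_pos_left i hm)⟩
  obtain ⟨l, hl⟩ : ∃ l : ℕ, l + k = 2 * m * k :=
    ⟨2 * m * k - k, Nat.sub_add_cancel (Nat.le_mul_of_pos_left k (by omega))⟩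
  have h2 : 2 ^ k * d ≡ 1 [MOD 2 ^ m - 1] := by
    calc 2 ^ k * d ≡ 2 ^ k * 2 ^ i [MOD 2 ^ m - 1] := h1.mul_left _
      _ = 2 ^ (m * i) := by rw [← pow_add, hk]
      _ ≡ 1 [MOD 2 ^ m - 1] := NP_pow_modEq_one m i
  have h3 := niho m (2 ^ k * d) hm (V_two_pow (2 * m) d k hV) h2
  have h4 : 2 ^ l * (2 ^ k * d) ≡ d [MOD 2 ^ (2 * m) - 1] := by
    calc 2 ^ l * (2 ^ k * d) = 2 ^ (2 * m * k) * d := by rw [← mul_assoc, ← pow_add, hl]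
      _ ≡ 1 * d [MOD 2 ^ (2 * m) - 1] := (NP_pow_modEq_one (2 * m) k).mul_right _
      _ = d := one_mul d
  rcases h3 with h3 | h3
  · refine ⟨l, h4.symm.trans ?_⟩
    have := h3.mul_left (2 ^ l)
    rwa [mul_one] at this
  · refine ⟨l + m, h4.symm.trans ?_⟩
    have := h3.mul_left (2 ^ l)
    rwa [← pow_add] at this

theorem pow2 (a d : ℕ) (hV : V (2 ^ a) d) : ∃ i : ℕ, d ≡ 2 ^ i [MOD 2 ^ 2 ^ a - 1] := by
  induction a with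
  | zero => exact ⟨0, by simp [Nat.modEq_one]⟩
  | succ a ih =>
    obtain ⟨i, hi⟩ := ih (V_dvd (2 ^ (a + 1)) (2 ^ a) d (by positivity)
      (pow_dvd_pow 2 (Nat.le_succ a)) hV)
    have h2 : 2 ^ (a + 1) = 2 * 2 ^ a := by ring
    rw [h2] at hV ⊢
    exact niho' (2 ^ a) d i (by positivity) hV hi

end Pool.Agent.TV
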