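import Pool.Agent.Lib_helper65.TV.Defs
import Pool.Agent.Lib_helper65.TVC.EQV
import Pool.Agent.Lib_helper65.TVC.NP
import Pool.Agent.Lib_helper65.TVC.CR
import Pool.Agent.Lib_helper65.TVC.GL

set_option autoImplicit false

/-!
# Block IS: the induction step
-/

namespace Pool.Agent.TV

theorem IS_pow (n k : ℕ) : 2 ^ (n * k) ≡ 1 [MOD 2 ^ n - 1] := by
  have h : 2 ^ n ≡ 1 [MOD 2 ^ n - 1] := Nat.modEq_sub Nat.one_le_two_pow
  have h1 := h.pow k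
  rwa [one_pow, ← pow_mul] at h1

theorem IS_undo {n t d g : ℕ} (hn : 0 < n) (h : 2 ^ t * d ≡ g [MOD 2 ^ n - 1]) :
    d ≡ 2 ^ (t * (n - 1)) * g [MOD 2 ^ n - 1] := by
  have h1 := h.mul_left (2 ^ (t * (n - 1)))
  have e : 2 ^ (t * (n - 1)) * (2 ^ t * d) = 2 ^ (n * t) * d := by
    rw [← mul_assoc, ← pow_add]
    congr 2
    obtain ⟨m, rfl⟩ := Nat.exists_eq_succ_of_ne_zero hn.ne'
    simp only [Nat.succ_eq_add_one, Nat.add_sub_cancel]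
    ring
  rw [e] at h1
  have h2 := (IS_pow n t).mul_right d
  rw [one_mul] at h2
  exact h2.symm.trans h1

theorem IS_dvd (a b : ℕ) : 2 ^ a - 1 ∣ 2 ^ (a * b) - 1 := by
  rw [pow_mul]
  exact Nat.sub_one_dvd_pow_sub_one (2 ^ a) b

/-- powers of two congruent to `2` modulo `2^h - 1` -/
theorem IS_exp {h l : ℕ} (hh : 2 ≤ h) (hl : 2 ^ l ≡ 2 [MOD 2 ^ h - 1]) : ∃ k, l = h * k + 1 := by
  have h1 : 2 ^ l ≡ 2 ^ (l % h) [MOD 2 ^ h - 1] := by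
    have e : 2 ^ l = 2 ^ (h * (l / h)) * 2 ^ (l % h) := by
      rw [← pow_add, Nat.div_add_mod]
    rw [e]
    have := (IS_pow h (l / h)).mul_right (2 ^ (l % h))
    rwa [one_mul] at this
  have h2 : 2 ^ (l % h) ≡ 2 [MOD 2 ^ h - 1] := h1.symm.trans hl
  have h4 : 4 ≤ 2 ^ h := by
    calc 4 = 2 ^ 2 := by norm_num
      _ ≤ 2 ^ h := Nat.pow_le_pow_right (by norm_num) hh
  have hlt : 2 ^ (l % h) < 2 ^ h - 1 := by
    have hr : l % h ≤ h - 1 := by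
      have := Nat.mod_lt l (show 0 < h by omega)
      omega
    have h5 : 2 ^ (l % h) ≤ 2 ^ (h - 1) := Nat.pow_le_pow_right (by norm_num) hr
    have h6 : 2 ^ h = 2 * 2 ^ (h - 1) := by
      rw [← pow_succ']
      congr 1
      omega
    omega
  have h3 : 2 ^ (l % h) = 2 := by
    have h8 : 2 ^ (l % h) % (2 ^ h - 1) = 2 % (2 ^ h - 1) := h2
    have h9 : 2 ^ (l % h) % (2 ^ h - 1) = 2 ^ (l % h) := Nat.mod_eq_of_lt hlt
    have h10 : 2 % (2 ^ h - 1) = 2 := Nat.mod_eq_of_lt (by omega)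
    rw [← h9, h8, h10]
  have h7 : l % h = 1 := by
    have : 2 ^ (l % h) = 2 ^ 1 := by rw [h3, pow_one]
    exact Nat.pow_right_injective (le_refl 2) this
  exact ⟨l / h, by rw [← h7, Nat.div_add_mod]⟩

/-- the case of a multiple of the Gold exponent -/
theorem IS_caseB (h d : ℕ) (hh : 2 ≤ h) (hV : V (6 * h) d)
    (h2 : ∃ i : ℕ, d ≡ 2 ^ i [MOD 2 ^ (2 * h) - 1])
    (h3 : ∃ i : ℕ, d ≡ 2 ^ i * (2 ^ h + 1) [MOD 2 ^ (3 * h) - 1]) :
    ∃ i : ℕ, d ≡ 2 ^ i * (2 ^ (2 * h) + 1) [MOD 2 ^ (6 * h) - 1] := by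
  obtain ⟨i2, h2⟩ := h2
  obtain ⟨i, h3⟩ := h3
  have hh0 : 0 < h := by omega
  -- first multiplication
  set s : ℕ := 2 * h + i * (3 * h - 1) with hs
  have hd3 : 2 ^ s * d ≡ 2 ^ (2 * h) + 1 [MOD 2 ^ (3 * h) - 1] := by
    have h4 := h3.mul_left (2 ^ s)
    refine h4.trans ?_
    have e : 2 ^ s * (2 ^ i * (2 ^ h + 1)) = 2 ^ (3 * h * i) * (2 ^ (3 * h) + 2 ^ (2 * h)) := by
      have e1 : s + i = 2 * h + 3 * h * i := by
        rw [hs]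
        obtain ⟨m, hm⟩ : ∃ m, 3 * h = m + 1 := ⟨3 * h - 1, by omega⟩
        rw [hm, Nat.add_sub_cancel]
        ring
      rw [← mul_assoc, ← pow_add, e1, pow_add]
      have e2 : 3 * h = 2 * h + h := by ring
      rw [show 2 ^ (3 * h) = 2 ^ (2 * h) * 2 ^ h by rw [← pow_add, ← e2]]
      ring
    rw [e]
    have h5 : 2 ^ (3 * h) ≡ 1 [MOD 2 ^ (3 * h) - 1] := by
      have := IS_pow (3 * h) 1
      rwa [mul_one] at this
    have h6 := (IS_pow (3 * h) i).mul (h5.add_right (2 ^ (2 * h)))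
    rw [one_mul, add_comm 1] at h6
    exact h6
  have hd2 : 2 ^ s * d ≡ 2 ^ (s + i2) [MOD 2 ^ (2 * h) - 1] := by
    have := h2.mul_left (2 ^ s)
    rwa [← pow_add] at this
  -- modulo `2 ^ h - 1`
  have hq2 : 2 ^ h - 1 ∣ 2 ^ (2 * h) - 1 := by
    have := IS_dvd h 2
    rwa [mul_comm h 2] at this
  have hq3 : 2 ^ h - 1 ∣ 2 ^ (3 * h) - 1 := by
    have := IS_dvd h 3
    rwa [mul_comm h 3] at this
  have hmod : 2 ^ (s + i2) ≡ 2 [MOD 2 ^ h - 1] := by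
    have a1 := (hd2.of_dvd hq2).symm.trans (hd3.of_dvd hq3)
    have a2 : 2 ^ (2 * h) ≡ 1 [MOD 2 ^ h - 1] := by
      have := IS_pow h 2
      rwa [mul_comm h 2] at this
    exact a1.trans (a2.add_right 1)
  obtain ⟨k, hk⟩ := IS_exp hh hmod
  have hsq : 2 ^ (2 * h) ≡ 1 [MOD 2 ^ (2 * h) - 1] := by
    have := IS_pow (2 * h) 1
    rwa [mul_one] at this
  have hg2 : 2 ≡ 2 ^ (2 * h) + 1 [MOD 2 ^ (2 * h) - 1] := (hsq.add_right 1).symm
  -- the exponent `t`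
  have ht : ∃ t : ℕ, 2 ^ t * d ≡ 2 ^ (2 * h) + 1 [MOD 2 ^ (3 * h) - 1] ∧
      2 ^ t * d ≡ 2 ^ (2 * h) + 1 [MOD 2 ^ (2 * h) - 1] := by
    rcases Nat.even_or_odd' k with ⟨m, rfl | rfl⟩
    · refine ⟨s, hd3, hd2.trans ?_⟩
      rw [hk]
      have e : 2 ^ (h * (2 * m) + 1) = 2 ^ (2 * h * m) * 2 := by
        rw [pow_succ]; congr 2; ring
      rw [e]
      have := (IS_pow (2 * h) m).mul_right 2
      rw [one_mul] at this
      exact this.trans hg2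
    · refine ⟨3 * h + s, ?_, ?_⟩
      · have h5 := (IS_pow (3 * h) 1).mul hd3
        rw [mul_one, one_mul] at h5
        rw [pow_add, mul_assoc]
        exact h5
      · have h5 := hd2.mul_left (2 ^ (3 * h))
        rw [← mul_assoc, ← pow_add, ← pow_add] at h5
        refine h5.trans ?_
        rw [hk]
        have e : 2 ^ (3 * h + (h * (2 * m + 1) + 1)) = 2 ^ (2 * h * (m + 2)) * 2 := by
          rw [← pow_succ]; congr 1; ring
        rw [e]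
        have := (IS_pow (2 * h) (m + 2)).mul_right 2
        rw [one_mul] at this
        exact this.trans hg2
  obtain ⟨t, ht3, ht2⟩ := ht
  have hc := gold_crt h (2 ^ t * d) (2 ^ (2 * h) + 1) hh0 ht3 ht2
  have hl := gold_lift h (2 ^ t * d) hh (V_two_pow (6 * h) d t hV) hc
  exact ⟨_, IS_undo (by omega) hl⟩

/-- IS: the induction step -/
theorem ind_step (h d : ℕ) (hh : 2 ≤ h) (hc : Nat.Coprime d (2 ^ (6 * h) - 1)) (hV : V (6 * h) d)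
    (h2 : ∃ i : ℕ, d ≡ 2 ^ i [MOD 2 ^ (2 * h) - 1])
    (h3 : (∃ i : ℕ, d ≡ 2 ^ i [MOD 2 ^ (3 * h) - 1]) ∨
      (∃ i : ℕ, d ≡ 2 ^ i * (2 ^ h + 1) [MOD 2 ^ (3 * h) - 1]) ∨
      (∃ i : ℕ, d * (2 ^ h + 1) ≡ 2 ^ i [MOD 2 ^ (3 * h) - 1])) :
    (∃ i : ℕ, d ≡ 2 ^ i [MOD 2 ^ (6 * h) - 1]) ∨
      (∃ i : ℕ, d ≡ 2 ^ i * (2 ^ (2 * h) + 1) [MOD 2 ^ (6 * h) - 1]) ∨
      (∃ i : ℕ, d * (2 ^ (2 * h) + 1) ≡ 2 ^ i [MOD 2 ^ (6 * h) - 1]) := by
  rcases h3 with ⟨i, h3⟩ | h3 | ⟨i, h3⟩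
  · left
    have e : 6 * h = 2 * (3 * h) := by ring
    rw [e] at hV ⊢
    exact niho' (3 * h) d i (by omega) hV h3
  · exact Or.inr (Or.inl (IS_caseB h d hh hV h2 h3))
  · right; right
    have hM : 1 < 2 ^ (6 * h) - 1 := by
      have h4 : 2 ^ 2 ≤ 2 ^ (6 * h) := Nat.pow_le_pow_right (by norm_num) (by omega)
      omega
    obtain ⟨e, -, he⟩ := Nat.exists_mul_mod_eq_one_of_coprime hc hM
    have hde : d * e ≡ 1 [MOD 2 ^ (6 * h) - 1] := by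
      unfold Nat.ModEq
      rw [he, Nat.mod_eq_of_lt hM]
    have hVe : V (6 * h) e := V_inv (6 * h) d e hV hde
    have d2 : 2 ^ (2 * h) - 1 ∣ 2 ^ (6 * h) - 1 := by
      have := IS_dvd (2 * h) 3
      rwa [show 2 * h * 3 = 6 * h by ring] at this
    have d3 : 2 ^ (3 * h) - 1 ∣ 2 ^ (6 * h) - 1 := by
      have := IS_dvd (3 * h) 2
      rwa [show 3 * h * 2 = 6 * h by ring] at this
    have e2 : ∃ i : ℕ, e ≡ 2 ^ i [MOD 2 ^ (2 * h) - 1] := by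
      obtain ⟨j, h2⟩ := h2
      have a1 : 2 ^ j * e ≡ 1 [MOD 2 ^ (2 * h) - 1] :=
        (h2.symm.mul_right e).trans (hde.of_dvd d2)
      have a2 := IS_undo (n := 2 * h) (by omega) a1
      rw [mul_one] at a2
      exact ⟨_, a2⟩
    have e3 : ∃ i : ℕ, e ≡ 2 ^ i * (2 ^ h + 1) [MOD 2 ^ (3 * h) - 1] := by
      have a1 : 2 ^ i * e ≡ 2 ^ h + 1 [MOD 2 ^ (3 * h) - 1] := by
        have a2 := h3.symm.mul_right e
        have a3 := (hde.of_dvd d3).mul_right (2 ^ h + 1)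
        rw [one_mul] at a3
        refine a2.trans ?_
        rw [show d * (2 ^ h + 1) * e = d * e * (2 ^ h + 1) by ring]
        exact a3
      exact ⟨_, IS_undo (n := 3 * h) (by omega) a1⟩
    obtain ⟨j, hj⟩ := IS_caseB h e hh hVe e2 e3
    have a1 : 2 ^ j * (d * (2 ^ (2 * h) + 1)) ≡ 1 [MOD 2 ^ (6 * h) - 1] := by
      have a2 := hj.mul_left d
      rw [show d * (2 ^ j * (2 ^ (2 * h) + 1)) = 2 ^ j * (d * (2 ^ (2 * h) + 1)) by ring] at a2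
      exact a2.symm.trans hde
    have a3 := IS_undo (n := 6 * h) (by omega) a1
    rw [mul_one] at a3
    exact ⟨_, a3⟩

end Pool.Agent.TV
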