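import Pool.Agent.Lib_helper65.TV.Defs
import Pool.Agent.Lib_helper65.TVC.IS
import Pool.Agent.Lib_helper65.TVC.B6
import Pool.Agent.Lib_helper65.TVC.NP
import Pool.Agent.Lib_helper65.TVC.VD

set_option autoImplicit false

namespace Pool.Agent.TV

theorem CL_dvd (h : ℕ) : 2 ^ (3 * h) - 1 ∣ 2 ^ (6 * h) - 1 := by
  have e : 2 ^ (6 * h) = (2 ^ (3 * h)) ^ 2 := by
    rw [← pow_mul]
    congr 1
    ring
  rw [e]
  have h1 := Nat.sub_dvd_pow_sub_pow (2 ^ (3 * h)) 1 2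
  rwa [one_pow] at h1

theorem classify (a d : ℕ) (hc : Nat.Coprime d (2 ^ (3 * 2 ^ a) - 1)) (hV : V (3 * 2 ^ a) d) :
    (∃ i : ℕ, d ≡ 2 ^ i [MOD 2 ^ (3 * 2 ^ a) - 1]) ∨
      (∃ i : ℕ, d ≡ 2 ^ i * (2 ^ 2 ^ a + 1) [MOD 2 ^ (3 * 2 ^ a) - 1]) ∨
      (∃ i : ℕ, d * (2 ^ 2 ^ a + 1) ≡ 2 ^ i [MOD 2 ^ (3 * 2 ^ a) - 1]) := by
  induction a with
  | zero =>
    have e : 2 ^ (3 * 2 ^ 0) - 1 = 7 := by norm_num
    have e2 : 2 ^ 2 ^ 0 + 1 = 3 := by norm_num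
    rw [e] at hc ⊢
    rw [e2]
    rcases base3 d hc with h | h
    · exact Or.inl h
    · exact Or.inr (Or.inl h)
  | succ a ih =>
    rcases Nat.eq_zero_or_pos a with h0 | h0
    · subst h0
      have e : 2 ^ (3 * 2 ^ (0 + 1)) - 1 = 63 := by norm_num
      have e2 : 2 ^ 2 ^ (0 + 1) + 1 = 5 := by norm_num
      have e3 : 3 * 2 ^ (0 + 1) = 6 := by norm_num
      rw [e3] at hV
      rw [e] at hc ⊢
      rw [e2]
      exact base6 d hc hV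
    · obtain ⟨h, hh⟩ : ∃ h, h = 2 ^ a := ⟨_, rfl⟩
      have hh2 : 2 ≤ h := by
        rw [hh]
        calc 2 = 2 ^ 1 := by norm_num
          _ ≤ 2 ^ a := Nat.pow_le_pow_right (by norm_num) h0
      have e1 : 3 * 2 ^ (a + 1) = 6 * h := by rw [hh]; ring
      have e2 : 2 ^ (a + 1) = 2 * h := by rw [hh]; ring
      rw [← hh] at ih
      rw [e1] at hc hV ⊢
      rw [e2]
      have hV3 : V (3 * h) d := V_dvd (6 * h) (3 * h) d (by omega) ⟨2, by ring⟩ hV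
      have hV2 : V (2 ^ (a + 1)) d := by
        rw [e2]
        exact V_dvd (6 * h) (2 * h) d (by omega) ⟨3, by ring⟩ hV
      have h2 := pow2 (a + 1) d hV2
      rw [e2] at h2
      exact ind_step h d hh2 hc hV h2 (ih (hc.coprime_dvd_right (CL_dvd h)) hV3)

end Pool.Agent.TV
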