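import Pool.Agent.Lib_helper65.TV.Defs

set_option autoImplicit false

/-!
# Block GA: the basic Gauss sum over the Witt vectors
-/

namespace Pool.Agent.TV

theorem GA_two_ne (F : Type) [Field F] [CharP F 2] : (2 : WittVector 2 F) ≠ 0 := by
  have h := (WittVector.irreducible 2 (k := F)).ne_zero
  exact_mod_cast h

theorem GA_cc (F : Type) [Field F] (x : F) :
    (WittVector.constantCoeff : WittVector 2 F →+* F) (WittVector.teichmuller 2 x) = x :=
  WittVector.teichmuller_coeff_zero 2 x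

theorem GA_exists {F : Type} [Field F] [Fintype F] {n : ℕ} (hn : 2 ≤ n)
    (hF : Fintype.card F = 2 ^ n) : ∃ y : F, y ≠ 0 ∧ y ≠ 1 := by
  classical
  by_contra hcon
  push Not at hcon
  have hsub : (Finset.univ : Finset F) ⊆ {0, 1} := by
    intro y _
    rw [Finset.mem_insert, Finset.mem_singleton]
    by_cases h : y = 0
    · exact Or.inl h
    · exact Or.inr (hcon y h)
  have h1 := Finset.card_le_card hsub
  rw [Finset.card_univ, hF] at h1
  have h2 : ({0, 1} : Finset F).card ≤ 2 := Finset.card_le_two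
  have h3 : 2 ^ 2 ≤ 2 ^ n := Nat.pow_le_pow_right (by norm_num) hn
  omega

theorem GA_sum_zero (F : Type) [Field F] [Fintype F] [CharP F 2] {n : ℕ} (hn : 2 ≤ n)
    (hF : Fintype.card F = 2 ^ n) (i : ℕ) :
    ∑ x : F, (WittVector.teichmuller 2 (x⁻¹)) ^ (2 ^ i) = 0 := by
  obtain ⟨y, hy0, hy1⟩ := GA_exists hn hF
  set S : WittVector 2 F := ∑ x : F, (WittVector.teichmuller 2 (x⁻¹)) ^ (2 ^ i) with hS
  have h1 : S = (WittVector.teichmuller 2 (y⁻¹)) ^ (2 ^ i) * S := by
    rw [hS, Finset.mul_sum]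
    refine (Fintype.sum_equiv (Equiv.mulLeft₀ y hy0) _ _ fun x => ?_).symm
    rw [← mul_pow, ← map_mul]
    congr 2
    show y⁻¹ * x⁻¹ = (y * x)⁻¹
    rw [mul_inv]
  have h2 : (1 - (WittVector.teichmuller 2 (y⁻¹)) ^ (2 ^ i)) * S = 0 := by
    rw [sub_mul, one_mul, ← h1, sub_self]
  rcases mul_eq_zero.1 h2 with h3 | h3
  · exfalso
    have h4 := congrArg (WittVector.constantCoeff : WittVector 2 F →+* F) h3
    rw [map_sub, map_one, map_pow, GA_cc, map_zero] at h4
    have h5 : (1 - y⁻¹) ^ (2 ^ i) = 0 := by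
      rw [sub_pow_char_pow, one_pow]
      exact h4
    have h6 : y⁻¹ = 1 := by
      have := pow_eq_zero_iff (pow_ne_zero i two_ne_zero) |>.1 h5
      exact (sub_eq_zero.1 this).symm
    exact hy1 (inv_eq_one.1 h6)
  · exact h3

theorem GA_trace (F : Type) [Field F] [Fintype F] [Algebra (ZMod 2) F] {n : ℕ}
    (hF : Fintype.card F = 2 ^ n) (x : F) :
    (if Algebra.trace (ZMod 2) F x = 0 then (0 : F) else 1) =
      ∑ l ∈ Finset.range n, x ^ (2 ^ l) := by
  have hfr : Module.finrank (ZMod 2) F = n := by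
    have h1 := Module.card_eq_pow_finrank (K := ZMod 2) (V := F)
    rw [hF, ZMod.card] at h1
    exact (Nat.pow_right_injective (le_refl 2) h1).symm
  have h2 := FiniteField.algebraMap_trace_eq_sum_pow (ZMod 2) F x
  rw [hfr, Nat.card_eq_fintype_card, ZMod.card] at h2
  rw [← h2]
  have h3 : ∀ t : ZMod 2, (if t = 0 then (0 : F) else 1) = algebraMap (ZMod 2) F t := by
    intro t
    fin_cases t
    · show (if (0 : ZMod 2) = 0 then (0 : F) else 1) = algebraMap (ZMod 2) F 0
      rw [if_pos rfl, map_zero]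
    · show (if (1 : ZMod 2) = 0 then (0 : F) else 1) = algebraMap (ZMod 2) F 1
      rw [if_neg (by decide), map_one]
  exact h3 _

theorem GA_sum_ne (F : Type) [Field F] [Fintype F] [Algebra (ZMod 2) F] {n : ℕ}
    (hn : 2 ≤ n) (hF : Fintype.card F = 2 ^ n) :
    ∑ x : F, x⁻¹ * (if Algebra.trace (ZMod 2) F x = 0 then (0 : F) else 1) ≠ 0 := by
  classical
  simp only [GA_trace F hF, Finset.mul_sum]
  rw [Finset.sum_comm]
  have hz : ∀ l ∈ Finset.range n, l ≠ 0 → ∑ x : F, x⁻¹ * x ^ (2 ^ l) = 0 := by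
    intro l hl hl0
    have h1 : ∀ x : F, x⁻¹ * x ^ (2 ^ l) = x ^ (2 ^ l - 1) := by
      intro x
      have h2 : 2 ≤ 2 ^ l := by
        calc 2 = 2 ^ 1 := (pow_one 2).symm
          _ ≤ 2 ^ l := Nat.pow_le_pow_right (by norm_num) (Nat.one_le_iff_ne_zero.2 hl0)
      by_cases hx : x = 0
      · subst hx
        rw [zero_pow (by omega), zero_pow (by omega), mul_zero]
      · have h3 : x ^ (2 ^ l) = x * x ^ (2 ^ l - 1) := by
          rw [← pow_succ']
          congr 1
          omega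
        rw [h3, ← mul_assoc, inv_mul_cancel₀ hx, one_mul]
    simp only [h1]
    apply FiniteField.sum_pow_lt_card_sub_one
    rw [hF]
    have h4 : 2 ^ l < 2 ^ n := Nat.pow_lt_pow_right (by norm_num) (Finset.mem_range.1 hl)
    have h5 : 1 ≤ 2 ^ l := Nat.one_le_two_pow
    omega
  rw [Finset.sum_eq_single_of_mem 0 (Finset.mem_range.2 (by omega)) hz]
  have h1 : ∀ x : F, x⁻¹ * x ^ (2 ^ 0) = 1 - (if x = 0 then 1 else 0) := by
    intro x
    by_cases hx : x = 0
    · simp [hx]
    · simp [hx]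
  simp only [h1]
  rw [Finset.sum_sub_distrib, Finset.sum_const, Finset.card_univ, Finset.sum_ite_eq' Finset.univ (0 : F),
    if_pos (Finset.mem_univ _), nsmul_eq_mul, mul_one, FiniteField.cast_card_eq_zero, zero_sub]
  exact neg_ne_zero.2 one_ne_zero

/-- GA: the basic Gauss sum over the Witt vectors is not divisible by 4. -/
theorem gauss_basic (F : Type) [Field F] [Fintype F] [Algebra (ZMod 2) F] [CharP F 2] (n : ℕ) (hn : 2 ≤ n)
    (hF : Fintype.card F = 2 ^ n) (i : ℕ) :
    ¬ ((4 : WittVector 2 F) ∣ ∑ x : F, (WittVector.teichmuller 2 (x⁻¹)) ^ (2 ^ i) *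
      (if Algebra.trace (ZMod 2) F x = 0 then 1 else -1)) := by
  intro hdvd
  set T : WittVector 2 F := ∑ x : F, (WittVector.teichmuller 2 (x⁻¹)) ^ (2 ^ i) *
    (if Algebra.trace (ZMod 2) F x = 0 then 0 else 1) with hT
  have h1 : ∑ x : F, (WittVector.teichmuller 2 (x⁻¹)) ^ (2 ^ i) *
      (if Algebra.trace (ZMod 2) F x = 0 then (1 : WittVector 2 F) else -1) = -(2 * T) := by
    have h2 : ∀ x : F, (WittVector.teichmuller 2 (x⁻¹)) ^ (2 ^ i) *
        (if Algebra.trace (ZMod 2) F x = 0 then (1 : WittVector 2 F) else -1) =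
        (WittVector.teichmuller 2 (x⁻¹)) ^ (2 ^ i) - 2 * ((WittVector.teichmuller 2 (x⁻¹)) ^ (2 ^ i) *
          (if Algebra.trace (ZMod 2) F x = 0 then 0 else 1)) := by
      intro x
      split_ifs <;> ring
    simp only [h2]
    rw [Finset.sum_sub_distrib, GA_sum_zero F hn hF i, ← Finset.mul_sum, zero_sub]
  rw [h1, dvd_neg] at hdvd
  obtain ⟨c, hc⟩ := hdvd
  have h3 : T = 2 * c := by
    apply mul_left_cancel₀ (GA_two_ne F)
    rw [hc]
    ring
  have h4 := congrArg (WittVector.constantCoeff : WittVector 2 F →+* F) h3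
  have h20 : (WittVector.constantCoeff : WittVector 2 F →+* F) 2 = 0 := by
    have := map_ofNat (WittVector.constantCoeff : WittVector 2 F →+* F) 2
    rw [this]
    exact CharTwo.two_eq_zero
  rw [map_mul, h20, zero_mul, hT, map_sum] at h4
  have h5 : ∀ x : F, (WittVector.constantCoeff : WittVector 2 F →+* F)
      ((WittVector.teichmuller 2 (x⁻¹)) ^ (2 ^ i) *
        (if Algebra.trace (ZMod 2) F x = 0 then 0 else 1)) =
      (x⁻¹ * (if Algebra.trace (ZMod 2) F x = 0 then (0 : F) else 1)) ^ (2 ^ i) := by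
    intro x
    rw [map_mul, map_pow, GA_cc, mul_pow]
    congr 1
    split_ifs
    · rw [map_zero, zero_pow (pow_ne_zero i two_ne_zero)]
    · rw [map_one, one_pow]
  simp only [h5] at h4
  rw [← sum_pow_char_pow] at h4
  exact GA_sum_ne F hn hF (pow_eq_zero_iff (pow_ne_zero i two_ne_zero) |>.1 h4)

end Pool.Agent.TV
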