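import Pool.Agent.Lib_helper65.TV.Defs
import Pool.Agent.Lib_helper65.TVC.GA
import Pool.Agent.Lib_helper65.TVC.BWA

set_option autoImplicit false

/-!
# Block GB: the 2-adic valuation of the Gauss sums (upper bound, Stickelberger)
-/

namespace Pool.Agent.TV

section

variable (F : Type) [Field F] [Fintype F] [Algebra (ZMod 2) F] [CharP F 2]

/-- the additive character -/
noncomputable def GB_psi : AddChar F (WittVector 2 F) where
  toFun x := if Algebra.trace (ZMod 2) F x = 0 then 1 else -1
  map_zero_eq_one' := by rw [map_zero, if_pos rfl]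
  map_add_eq_mul' := by
    intro x y
    rw [map_add]
    have h : ∀ s t : ZMod 2, (if s + t = 0 then (1 : WittVector 2 F) else -1) =
        (if s = 0 then 1 else -1) * (if t = 0 then 1 else -1) := by
      intro s t
      have h2 : ∀ s t : ZMod 2, (s + t = 0) ↔ (s = 0 ↔ t = 0) := by decide
      have h3 := h2 s t
      by_cases hs : s = 0 <;> by_cases ht : t = 0 <;> simp [h3, hs, ht]
    exact h _ _

/-- the multiplicative character `omega^(-j)` -/
noncomputable def GB_chi (j : ℕ) (hj : j ≠ 0) : MulChar F (WittVector 2 F) where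
  toFun x := (WittVector.teichmuller 2 (x⁻¹)) ^ j
  map_one' := by rw [inv_one, map_one, one_pow]
  map_mul' := by
    intro x y
    show (WittVector.teichmuller 2 ((x * y)⁻¹)) ^ j = _
    rw [mul_inv, map_mul, mul_pow]
  map_nonunit' := by
    intro x hx
    have hx0 : x = 0 := by
      by_contra h
      exact hx (isUnit_iff_ne_zero.2 h)
    show (WittVector.teichmuller 2 (x⁻¹)) ^ j = 0
    rw [hx0, inv_zero, WittVector.teichmuller_zero, zero_pow hj]

theorem GB_chi_apply (j : ℕ) (hj : j ≠ 0) (x : F) :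
    GB_chi F j hj x = (WittVector.teichmuller 2 (x⁻¹)) ^ j := rfl

theorem GB_chi_mul (i j : ℕ) (hi : i ≠ 0) (hj : j ≠ 0) (hij : i + j ≠ 0) :
    GB_chi F i hi * GB_chi F j hj = GB_chi F (i + j) hij := by
  refine MulChar.ext fun x => ?_
  rw [MulChar.mul_apply, GB_chi_apply, GB_chi_apply, GB_chi_apply, pow_add]

theorem GB_chi_ne {n : ℕ} (hF : Fintype.card F = 2 ^ n) (j : ℕ) (hj : j ≠ 0)
    (hj' : j < 2 ^ n - 1) : GB_chi F j hj ≠ 1 := by
  intro h
  have h1 : ∀ x : Fˣ, x ^ j = 1 := by
    intro x
    have h2 : GB_chi F j hj ((x⁻¹ : Fˣ) : F) = 1 := by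
      rw [h]
      exact MulChar.one_apply_coe _
    rw [GB_chi_apply] at h2
    have h3 := congrArg (WittVector.constantCoeff : WittVector 2 F →+* F) h2
    rw [map_pow, map_one] at h3
    have h4 : (WittVector.constantCoeff : WittVector 2 F →+* F)
        (WittVector.teichmuller 2 (((x⁻¹ : Fˣ) : F)⁻¹)) = ((x⁻¹ : Fˣ) : F)⁻¹ :=
      WittVector.teichmuller_coeff_zero 2 _
    rw [h4, Units.val_inv_eq_inv_val, inv_inv] at h3
    exact Units.ext (by rw [Units.val_pow_eq_pow_val, h3, Units.val_one])
  have h5 := (FiniteField.forall_pow_eq_one_iff F j).1 h1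
  rw [hF] at h5
  have h6 := Nat.le_of_dvd (Nat.pos_of_ne_zero hj) h5
  omega

/-- the Gauss sum -/
theorem GB_gauss (j : ℕ) (hj : j ≠ 0) : gaussSum (GB_chi F j hj) (GB_psi F) =
    ∑ x : F, (WittVector.teichmuller 2 (x⁻¹)) ^ j *
      (if Algebra.trace (ZMod 2) F x = 0 then 1 else -1) := rfl

theorem GB_prime : Prime (2 : WittVector 2 F) := by
  haveI : PerfectRing F 2 := PerfectRing.ofFiniteOfIsReduced 2 F
  have h : Irreducible ((2 : ℕ) : WittVector 2 F) := WittVector.irreducible 2
  have h2 := h.prime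
  exact_mod_cast h2

end

theorem GB_pow {R : Type} [CommRing R] [IsDomain R] {p : R} (hp : Prime p) :
    ∀ (s k l : ℕ) (a b : R), k + l = s → p ^ (k + l + 1) ∣ a * b →
      p ^ (k + 1) ∣ a ∨ p ^ (l + 1) ∣ b := by
  intro s
  induction s with
  | zero =>
    intro k l a b hkl h
    have hk : k = 0 := by omega
    have hl : l = 0 := by omega
    subst hk; subst hl
    simp only [zero_add, pow_one] at h ⊢
    exact hp.dvd_or_dvd h
  | succ s ih =>
    intro k l a b hkl h
    have h1 : p ∣ a * b := (dvd_pow_self p (Nat.succ_ne_zero _)).trans h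
    rcases hp.dvd_or_dvd h1 with ⟨c, rfl⟩ | ⟨c, rfl⟩
    · rcases k with _ | k
      · left; rw [zero_add, pow_one]; exact dvd_mul_right p c
      · have h2 : p ^ (k + l + 1) ∣ c * b := by
          have e : p ^ (k + 1 + l + 1) = p * p ^ (k + l + 1) := by
            rw [← pow_succ']; congr 1; ring
          rw [e, mul_assoc] at h
          exact (mul_dvd_mul_iff_left hp.ne_zero).1 h
        rcases ih k l c b (by omega) h2 with h3 | h3
        · left; rw [pow_succ' p (k + 1)]; exact mul_dvd_mul_left p h3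
        · exact Or.inr h3
    · rcases l with _ | l
      · right; rw [zero_add, pow_one]; exact dvd_mul_right p c
      · have h2 : p ^ (k + l + 1) ∣ a * c := by
          have e : p ^ (k + (l + 1) + 1) = p * p ^ (k + l + 1) := by
            rw [← pow_succ']; congr 1
          rw [e, mul_left_comm] at h
          exact (mul_dvd_mul_iff_left hp.ne_zero).1 h
        rcases ih k l a c (by omega) h2 with h3 | h3
        · exact Or.inl h3
        · right; rw [pow_succ' p (l + 1)]; exact mul_dvd_mul_left p h3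

theorem GB_bw_one : bw 1 = 1 := by
  have h := bw_two_mul_add 0 1 (by norm_num)
  rw [bw_zero] at h
  simpa using h

/-- GB: the Gauss sum of the character `omega^(-j)` is not divisible by `2^(bw j + 1)`. -/
theorem gauss_val (F : Type) [Field F] [Fintype F] [Algebra (ZMod 2) F] [CharP F 2] (n : ℕ) (hn : 2 ≤ n)
    (hF : Fintype.card F = 2 ^ n) (j : ℕ) (hj : 0 < j) (hj' : j < 2 ^ n - 1) :
    ¬ ((2 : WittVector 2 F) ^ (bw j + 1) ∣ ∑ x : F, (WittVector.teichmuller 2 (x⁻¹)) ^ j *
      (if Algebra.trace (ZMod 2) F x = 0 then 1 else -1)) := by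
  induction j using Nat.strong_induction_on with
  | _ j ih =>
    have hj0 : j ≠ 0 := hj.ne'
    set i := Nat.log 2 j with hi
    have h1 : 2 ^ i ≤ j := Nat.pow_log_le_self 2 hj0
    have h2 : j < 2 ^ (i + 1) := Nat.lt_pow_succ_log_self (by norm_num) j
    obtain ⟨j', hjj⟩ : ∃ j', j = j' + 2 ^ i := ⟨j - 2 ^ i, by omega⟩
    have hlt : j' < 2 ^ i := by rw [pow_succ] at h2; omega
    have hbw : bw j = bw j' + 1 := by
      have := bw_low_high i j' 1 hlt
      rw [mul_one, ← hjj, GB_bw_one] at this
      exact this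
    rcases Nat.eq_zero_or_pos j' with h0 | hpos
    · subst h0
      rw [zero_add] at hjj
      intro hd
      rw [hbw, bw_zero, hjj] at hd
      refine gauss_basic F n hn hF i ?_
      have e : (2 : WittVector 2 F) ^ (0 + 1 + 1) = 4 := by norm_num
      rw [e] at hd
      exact hd
    · have hp0 : (2 : ℕ) ^ i ≠ 0 := pow_ne_zero i two_ne_zero
      have hj'0 : j' ≠ 0 := hpos.ne'
      intro hd
      have hsum : GB_chi F j' hj'0 * GB_chi F (2 ^ i) hp0 = GB_chi F j hj0 := by
        rw [GB_chi_mul F j' (2 ^ i) hj'0 hp0 (by omega)]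
        congr 1
        exact hjj.symm
      have hne : GB_chi F j' hj'0 * GB_chi F (2 ^ i) hp0 ≠ 1 := by
        rw [hsum]; exact GB_chi_ne F hF j hj0 hj'
      have key := jacobiSum_mul_nontrivial hne (GB_psi F)
      rw [hsum, GB_gauss, GB_gauss, GB_gauss] at key
      have hd2 := hd.mul_right (jacobiSum (GB_chi F j' hj'0) (GB_chi F (2 ^ i) hp0))
      rw [key, hbw] at hd2
      rcases GB_pow (GB_prime F) _ (bw j') 1 _ _ rfl hd2 with h3 | h3
      · exact ih j' (by omega) hpos (by omega) h3
      · refine gauss_basic F n hn hF i ?_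
        have e : (2 : WittVector 2 F) ^ (1 + 1) = 4 := by norm_num
        rw [e] at h3
        exact h3

end Pool.Agent.TV
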