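import Pool.Agent.Lib_helper65.TV.Defs
import Pool.Agent.Lib_helper65.TVC.GB
import Pool.Agent.Lib_helper65.TVC.BWB

set_option autoImplicit false

/-!
# Block GC: McEliece's theorem (lower bound for binary weights) from the Gauss sum bound
-/

namespace Pool.Agent.TV

section

variable (F : Type) [Field F] [Fintype F] [Algebra (ZMod 2) F] [CharP F 2]

/-- the additive character -/
noncomputable def GC_psi (x : F) : WittVector 2 F :=
  if Algebra.trace (ZMod 2) F x = 0 then 1 else -1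

theorem GC_psi_zero : GC_psi F 0 = 1 := by
  unfold GC_psi
  rw [map_zero, if_pos rfl]

theorem GC_psi_add (x y : F) : GC_psi F (x + y) = GC_psi F x * GC_psi F y := by
  unfold GC_psi
  rw [map_add]
  have h : ∀ s t : ZMod 2, (if s + t = 0 then (1 : WittVector 2 F) else -1) =
      (if s = 0 then 1 else -1) * (if t = 0 then 1 else -1) := by
    intro s t
    have h2 : ∀ s t : ZMod 2, (s + t = 0) ↔ (s = 0 ↔ t = 0) := by decide
    have h3 := h2 s t
    by_cases hs : s = 0 <;> by_cases ht : t = 0 <;> simp [h3, hs, ht]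
  exact h _ _

theorem GC_W (d : ℕ) (a : F) : ((W F d a : ℤ) : WittVector 2 F) =
    ∑ x : F, GC_psi F (x ^ d) * GC_psi F (a * x) := by
  unfold W
  rw [Int.cast_sum]
  refine Finset.sum_congr rfl fun x _ => ?_
  rw [← GC_psi_add]
  unfold GC_psi
  split_ifs <;> simp

/-- the multiplicative character `omega^(-j)` -/
noncomputable def GC_chi (j : ℕ) (hj : j ≠ 0) : MulChar F (WittVector 2 F) where
  toFun x := (WittVector.teichmuller 2 (x⁻¹)) ^ j
  map_one' := by rw [inv_one, map_one, one_pow]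
  map_mul' := by
    intro x y
    show (WittVector.teichmuller 2 ((x * y)⁻¹)) ^ j = _
    rw [mul_inv, map_mul, mul_pow]
  map_nonunit' := by
    intro x hx
    have hx0 : x = 0 := by
      by_contra h
      exact hx (isUnit_iff_ne_zero.2 h)
    show (WittVector.teichmuller 2 (x⁻¹)) ^ j = 0
    rw [hx0, inv_zero, WittVector.teichmuller_zero, zero_pow hj]

theorem GC_chi_apply (j : ℕ) (hj : j ≠ 0) (x : F) :
    GC_chi F j hj x = (WittVector.teichmuller 2 (x⁻¹)) ^ j := rfl

theorem GC_chi_ne {n : ℕ} (hF : Fintype.card F = 2 ^ n) (j : ℕ) (hj : j ≠ 0)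
    (hj' : j < 2 ^ n - 1) : GC_chi F j hj ≠ 1 := by
  intro h
  have h1 : ∀ x : Fˣ, x ^ j = 1 := by
    intro x
    have h2 : GC_chi F j hj ((x⁻¹ : Fˣ) : F) = 1 := by
      rw [h]
      exact MulChar.one_apply_coe _
    rw [GC_chi_apply] at h2
    have h3 := congrArg (WittVector.constantCoeff : WittVector 2 F →+* F) h2
    rw [map_pow, map_one] at h3
    have h4 : (WittVector.constantCoeff : WittVector 2 F →+* F)
        (WittVector.teichmuller 2 (((x⁻¹ : Fˣ) : F)⁻¹)) = ((x⁻¹ : Fˣ) : F)⁻¹ :=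
      WittVector.teichmuller_coeff_zero 2 _
    rw [h4, Units.val_inv_eq_inv_val, inv_inv] at h3
    exact Units.ext (by rw [Units.val_pow_eq_pow_val, h3, Units.val_one])
  have h5 := (FiniteField.forall_pow_eq_one_iff F j).1 h1
  rw [hF] at h5
  have h6 := Nat.le_of_dvd (Nat.pos_of_ne_zero hj) h5
  omega

theorem GC_sum_zero {n : ℕ} (hF : Fintype.card F = 2 ^ n) (j : ℕ) (hj : j ≠ 0)
    (hj' : j < 2 ^ n - 1) : ∑ x : F, (WittVector.teichmuller 2 (x⁻¹)) ^ j = 0 := by
  have h := MulChar.sum_eq_zero_of_ne_one (GC_chi_ne F hF j hj hj')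
  simpa only [GC_chi_apply] using h

theorem GC_prime : Prime (2 : WittVector 2 F) := by
  haveI : PerfectRing F 2 := PerfectRing.ofFiniteOfIsReduced 2 F
  have h : Irreducible ((2 : ℕ) : WittVector 2 F) := WittVector.irreducible 2
  have h2 := h.prime
  exact_mod_cast h2

/-- the Gauss sum -/
noncomputable def GC_g (k : ℕ) : WittVector 2 F :=
  ∑ x : F, (WittVector.teichmuller 2 (x⁻¹)) ^ k * GC_psi F x

theorem GC_shift {n : ℕ} (hF : Fintype.card F = 2 ^ n) (k : ℕ) (hk : k ≠ 0)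
    (hk' : k < 2 ^ n - 1) (b : F) :
    ∑ a : F, (WittVector.teichmuller 2 (a⁻¹)) ^ k * GC_psi F (a * b) =
      (WittVector.teichmuller 2 b) ^ k * GC_g F k := by
  by_cases hb : b = 0
  · subst hb
    simp only [mul_zero, GC_psi_zero, mul_one]
    rw [GC_sum_zero F hF k hk hk', WittVector.teichmuller_zero, zero_pow hk, zero_mul]
  · unfold GC_g
    rw [Finset.mul_sum]
    refine Fintype.sum_equiv (Equiv.mulRight₀ b hb) _ _ fun a => ?_
    show _ = (WittVector.teichmuller 2 b) ^ k *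
      ((WittVector.teichmuller 2 ((a * b)⁻¹)) ^ k * GC_psi F (a * b))
    rw [← mul_assoc, ← mul_pow, ← map_mul]
    congr 3
    rw [mul_inv, mul_comm a⁻¹, ← mul_assoc, mul_inv_cancel₀ hb, one_mul]

theorem GC_pow_one {n : ℕ} (hF : Fintype.card F = 2 ^ n) {x : F} (hx : x ≠ 0) {k : ℕ}
    (hk : 2 ^ n - 1 ∣ k) : x ^ k = 1 := by
  obtain ⟨m, rfl⟩ := hk
  rw [pow_mul, ← hF, FiniteField.pow_card_sub_one_eq_one x hx, one_pow]

theorem GC_bij {n : ℕ} (hn : 2 ≤ n) (hF : Fintype.card F = 2 ^ n) {d : ℕ} (hd0 : d ≠ 0)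
    (hd : Nat.Coprime d (2 ^ n - 1)) : Function.Bijective (fun x : F => x ^ d) := by
  rw [← Finite.injective_iff_bijective]
  intro x y hxy
  simp only at hxy
  have hM : 1 < 2 ^ n - 1 := by
    have : 2 ^ 2 ≤ 2 ^ n := Nat.pow_le_pow_right (by norm_num) hn
    omega
  obtain ⟨e, he⟩ : ∃ e, d * e % (2 ^ n - 1) = 1 := by
    obtain ⟨e, he⟩ := Nat.exists_mul_mod_eq_one_of_coprime hd hM
    exact ⟨e, he.2⟩
  by_cases hx : x = 0
  · subst hx
    rw [zero_pow hd0] at hxy
    exact ((pow_eq_zero_iff hd0).1 hxy.symm).symm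
  · have hy : y ≠ 0 := by
      rintro rfl
      rw [zero_pow hd0] at hxy
      exact hx ((pow_eq_zero_iff hd0).1 hxy)
    have key : ∀ u : F, u ≠ 0 → (u ^ d) ^ e = u := by
      intro u hu
      rw [← pow_mul]
      have h1 : d * e = (2 ^ n - 1) * (d * e / (2 ^ n - 1)) + 1 := by
        have := Nat.div_add_mod (d * e) (2 ^ n - 1)
        rw [he] at this
        omega
      rw [h1, pow_add, GC_pow_one F hF hu (Dvd.intro _ rfl), one_mul, pow_one]
    rw [← key x hx, ← key y hy, hxy]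

end

theorem GC_pow {R : Type} [CommRing R] [IsDomain R] {p : R} (hp : Prime p) {a b : R} {k l : ℕ}
    (ha : ¬ p ^ (k + 1) ∣ a) (hb : ¬ p ^ (l + 1) ∣ b) : ¬ p ^ (k + l + 1) ∣ a * b := by
  intro h
  rw [pow_dvd_iff_le_emultiplicity] at ha hb h
  rw [emultiplicity_mul hp] at h
  push Not at ha hb
  have h1 : emultiplicity p a ≤ (k : ℕ∞) := by
    refine Order.le_of_lt_add_one ?_
    exact_mod_cast ha
  have h2 : emultiplicity p b ≤ (l : ℕ∞) := by
    refine Order.le_of_lt_add_one ?_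
    exact_mod_cast hb
  have h3 := h.trans (add_le_add h1 h2)
  have h4 : k + l + 1 ≤ k + l := by exact_mod_cast h3
  omega

/-- GC: McEliece. -/
theorem stickelberger (F : Type) [Field F] [Fintype F] [Algebra (ZMod 2) F] (n : ℕ) (hn : 0 < n)
    (hF : Fintype.card F = 2 ^ n) (d : ℕ) (hd : Nat.Coprime d (2 ^ n - 1)) (s : ℕ)
    (hdiv : ∀ a : F, ((2 : ℤ) ^ s) ∣ W F d a) (j z : ℕ) (hj : ¬ (2 ^ n - 1 ∣ j))
    (hz : 2 ^ n - 1 ∣ z + d * j) : s ≤ bw j + bw z := by
  haveI : CharP F 2 := charP_of_injective_algebraMap (algebraMap (ZMod 2) F).injective 2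
  have hn2 : 2 ≤ n := by
    by_contra h
    have h1 : n = 1 := by omega
    subst h1
    exact hj (by norm_num)
  have hM : 1 < 2 ^ n - 1 := by
    have : 2 ^ 2 ≤ 2 ^ n := Nat.pow_le_pow_right (by norm_num) hn2
    omega
  have hd0 : d ≠ 0 := by
    rintro rfl
    rw [Nat.coprime_zero_left] at hd
    omega
  have hj0 : j % (2 ^ n - 1) ≠ 0 := fun h => hj (Nat.dvd_of_mod_eq_zero h)
  have hz0 : z % (2 ^ n - 1) ≠ 0 := by
    intro h
    have h1 : 2 ^ n - 1 ∣ z := Nat.dvd_of_mod_eq_zero h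
    have h2 : 2 ^ n - 1 ∣ d * j := (Nat.dvd_add_right h1).1 hz
    exact hj (Nat.Coprime.dvd_of_dvd_mul_left hd.symm h2)
  have hzj : 2 ^ n - 1 ∣ z % (2 ^ n - 1) + d * (j % (2 ^ n - 1)) := by
    have h1 : z % (2 ^ n - 1) + d * (j % (2 ^ n - 1)) ≡ z + d * j [MOD 2 ^ n - 1] :=
      (Nat.mod_modEq _ _).add ((Nat.ModEq.refl d).mul (Nat.mod_modEq _ _))
    exact (Nat.modEq_zero_iff_dvd).1 (h1.trans ((Nat.modEq_zero_iff_dvd).2 hz))
  refine le_trans ?_ (add_le_add (bw_mod_le n j hn) (bw_mod_le n z hn))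
  have hjlt : j % (2 ^ n - 1) < 2 ^ n - 1 := Nat.mod_lt _ (by omega)
  have hzlt : z % (2 ^ n - 1) < 2 ^ n - 1 := Nat.mod_lt _ (by omega)
  generalize j % (2 ^ n - 1) = j0 at hj0 hzj hjlt
  generalize z % (2 ^ n - 1) = z0 at hz0 hzj hzlt
  -- the double sum
  have hS : ∑ a : F, ((W F d a : ℤ) : WittVector 2 F) * (WittVector.teichmuller 2 (a⁻¹)) ^ z0 =
      GC_g F z0 * GC_g F j0 := by
    calc ∑ a : F, ((W F d a : ℤ) : WittVector 2 F) * (WittVector.teichmuller 2 (a⁻¹)) ^ z0 =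
        ∑ a : F, ∑ x : F, GC_psi F (x ^ d) *
          ((WittVector.teichmuller 2 (a⁻¹)) ^ z0 * GC_psi F (a * x)) := by
          refine Finset.sum_congr rfl fun a _ => ?_
          rw [GC_W, Finset.sum_mul]
          exact Finset.sum_congr rfl fun x _ => by ring
      _ = ∑ x : F, GC_psi F (x ^ d) * ((WittVector.teichmuller 2 x) ^ z0 * GC_g F z0) := by
          rw [Finset.sum_comm]
          refine Finset.sum_congr rfl fun x _ => ?_
          rw [← Finset.mul_sum, GC_shift F hF z0 hz0 hzlt]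
      _ = GC_g F z0 * ∑ x : F, (WittVector.teichmuller 2 ((x ^ d)⁻¹)) ^ j0 * GC_psi F (x ^ d) := by
          rw [Finset.mul_sum]
          refine Finset.sum_congr rfl fun x _ => ?_
          have h1 : (WittVector.teichmuller 2 x) ^ z0 =
              (WittVector.teichmuller 2 ((x ^ d)⁻¹)) ^ j0 := by
            by_cases hx : x = 0
            · subst hx
              rw [zero_pow hd0, inv_zero, WittVector.teichmuller_zero, zero_pow hz0, zero_pow hj0]
            · rw [← map_pow, ← map_pow]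
              congr 1
              have h2 := GC_pow_one F hF hx hzj
              rw [pow_add, pow_mul] at h2
              rw [inv_pow]
              exact eq_inv_of_mul_eq_one_left h2
          rw [h1]
          ring
      _ = GC_g F z0 * GC_g F j0 := by
          congr 1
          exact (GC_bij F hn2 hF hd0 hd).sum_comp
            (fun y => (WittVector.teichmuller 2 (y⁻¹)) ^ j0 * GC_psi F y)
  have hdvd : (2 : WittVector 2 F) ^ s ∣ GC_g F z0 * GC_g F j0 := by
    rw [← hS]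
    refine Finset.dvd_sum fun a _ => ?_
    refine Dvd.dvd.mul_right ?_ _
    obtain ⟨c, hc⟩ := hdiv a
    rw [hc]
    push_cast
    exact Dvd.intro _ rfl
  by_contra hcon
  push Not at hcon
  have h1 := gauss_val F n hn2 hF z0 (Nat.pos_of_ne_zero hz0) hzlt
  have h2 := gauss_val F n hn2 hF j0 (Nat.pos_of_ne_zero hj0) hjlt
  refine GC_pow (GC_prime F) h1 h2 ?_
  refine (pow_dvd_pow _ ?_).trans hdvd
  omega

end Pool.Agent.TV
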