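import Pool.Agent.Lib_helper65.TV.Defs
import Pool.Agent.Lib_helper11.Katz.Field

set_option autoImplicit false

namespace Pool.Agent.TV

/-- the additive character of a finite field of characteristic two -/
noncomputable def katzChi (F : Type) [Field F] [Fintype F] [Algebra (ZMod 2) F] : AddChar F ℤ where
  toFun x := if Algebra.trace (ZMod 2) F x = 0 then 1 else -1
  map_zero_eq_one' := by simp
  map_add_eq_mul' x y := by
    rw [map_add]
    generalize Algebra.trace (ZMod 2) F x = s
    generalize Algebra.trace (ZMod 2) F y = t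
    fin_cases s <;> fin_cases t <;> simp <;> decide

theorem katz (F : Type) [Field F] [Fintype F] [Algebra (ZMod 2) F] (n : ℕ) (hn : 0 < n)
    (hF : Fintype.card F = 2 ^ n) (d : ℕ) (hd : Nat.Coprime d (2 ^ n - 1))
    (h3 : Set.ncard {v : ℤ | ∃ a : F, a ≠ 0 ∧ v = W F d a} = 3) (a : F) :
    ((2 : ℤ) ^ (n / 2 + 1)) ∣ W F d a := by
  classical
  haveI : CharP F 2 := by
    haveI : CharP (ZMod 2) 2 := ZMod.charP 2
    exact charP_of_injective_algebraMap (algebraMap (ZMod 2) F).injective 2
  have hψ : katzChi F ≠ 1 := by
    intro h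
    obtain ⟨x, hx⟩ := Algebra.trace_surjective (ZMod 2) F 1
    have h1 : katzChi F x = 1 := by rw [h]; rfl
    have h2 : katzChi F x = -1 := by
      show (if Algebra.trace (ZMod 2) F x = 0 then (1:ℤ) else -1) = -1
      rw [hx]; simp
    rw [h2] at h1
    norm_num at h1
  have hd0 : 0 < d := by
    rcases Nat.eq_zero_or_pos d with h | h
    · exfalso
      subst h
      have h1 : 2 ^ n - 1 = 1 := by simpa using hd
      have h2 : n = 1 := by
        have : 2 ^ n = 2 ^ 1 := by omega
        exact Nat.pow_right_injective le_rfl this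
      subst h2
      have h4 : {v : ℤ | ∃ a : F, a ≠ 0 ∧ v = W F 0 a} ⊆ {W F 0 1} := by
        rintro v ⟨a, ha, rfl⟩
        have hcu : Fintype.card Fˣ = 1 := by rw [Fintype.card_units, hF]; norm_num
        have : (Units.mk0 a ha) = 1 := by
          haveI := Fintype.card_le_one_iff_subsingleton.1 hcu.le
          exact Subsingleton.elim _ _
        have h5 : a = 1 := congrArg Units.val this
        rw [h5]; rfl
      have h5 := Set.ncard_le_ncard h4 (Set.finite_singleton _)
      rw [h3, Set.ncard_singleton] at h5
      omega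
    · exact h
  have hW : ∀ a : F, Pool.Agent.Lib_helper11.Katz.WS (katzChi F) d a = W F d a := fun a => rfl
  have := (Pool.Agent.Lib_helper11.Katz.three_valued (katzChi F) hψ hF hd hd0 (by
    simpa only [hW] using h3)).2 a
  rwa [hW] at this

end Pool.Agent.TV
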