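import Pool.Agent.Lib_helper65.TV.Defs

set_option autoImplicit false

namespace Pool.Agent.TV

theorem N3_pow (F : Type) [Field F] [Fintype F] (n : ℕ) (hF : Fintype.card F = 2 ^ n) (d i : ℕ)
    (hd : d ≡ 2 ^ i [MOD 2 ^ n - 1]) (hd0 : 0 < d) (x : F) : x ^ d = x ^ (2 ^ i) := by
  by_cases hx : x = 0
  · rw [hx, zero_pow hd0.ne', zero_pow (by positivity)]
  · have h1 : x ^ (2 ^ n - 1) = 1 := by
      rw [← hF]
      exact FiniteField.pow_card_sub_one_eq_one x hx
    have h2 : d ≡ 2 ^ i [MOD orderOf x] := hd.of_dvd (orderOf_dvd_of_pow_eq_one h1)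
    rw [← pow_mod_orderOf x d, ← pow_mod_orderOf x (2 ^ i), h2]

theorem N3_trace (F : Type) [Field F] [Fintype F] [Algebra (ZMod 2) F] (i : ℕ) (x : F) :
    Algebra.trace (ZMod 2) F (x ^ (2 ^ i)) = Algebra.trace (ZMod 2) F x := by
  induction i with
  | zero => rw [pow_zero, pow_one]
  | succ i ih =>
    rw [← ih, pow_succ, pow_mul]
    have h := Algebra.trace_eq_of_algEquiv (FiniteField.frobeniusAlgEquivOfAlgebraic (ZMod 2) F)
      (x ^ (2 ^ i))
    have h2 : FiniteField.frobeniusAlgEquivOfAlgebraic (ZMod 2) F (x ^ (2 ^ i)) =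
        (x ^ (2 ^ i)) ^ 2 := by
      rw [FiniteField.frobeniusAlgEquivOfAlgebraic_apply, ZMod.card]
    rw [h2] at h
    exact h

theorem N3_zmod (a : ZMod 2) : a = 0 ∨ a = 1 := by
  revert a
  decide

theorem N3_sum (F : Type) [Field F] [Fintype F] [Algebra (ZMod 2) F] (c : F) (hc : c ≠ 0) :
    ∑ x : F, (if Algebra.trace (ZMod 2) F (c * x) = 0 then (1 : ℤ) else -1) = 0 := by
  obtain ⟨y, hy⟩ := Algebra.trace_surjective (ZMod 2) F 1
  have h1 : ∑ x : F, (if Algebra.trace (ZMod 2) F (c * x) = 0 then (1 : ℤ) else -1) =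
      ∑ x : F, (if Algebra.trace (ZMod 2) F (c * (x + c⁻¹ * y)) = 0 then (1 : ℤ) else -1) :=
    (Equiv.sum_comp (Equiv.addRight (c⁻¹ * y))
      (fun x => if Algebra.trace (ZMod 2) F (c * x) = 0 then (1 : ℤ) else -1)).symm
  have h2 : ∀ x : F, (if Algebra.trace (ZMod 2) F (c * (x + c⁻¹ * y)) = 0 then (1 : ℤ) else -1) =
      -(if Algebra.trace (ZMod 2) F (c * x) = 0 then (1 : ℤ) else -1) := by
    intro x
    have e : c * (x + c⁻¹ * y) = c * x + y := by
      field_simp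
    rw [e, map_add, hy]
    rcases N3_zmod (Algebra.trace (ZMod 2) F (c * x)) with h | h
    · rw [h, if_neg (by decide), if_pos rfl]
    · rw [h, if_pos (by decide), if_neg (by decide), neg_neg]
  rw [Finset.sum_congr rfl (fun x _ => h2 x), Finset.sum_neg_distrib] at h1
  linarith

theorem not_three_of_pow2 (F : Type) [Field F] [Fintype F] [Algebra (ZMod 2) F] (n : ℕ) (hn : 0 < n)
    (hF : Fintype.card F = 2 ^ n) (d i : ℕ) (hd : d ≡ 2 ^ i [MOD 2 ^ n - 1]) (hd0 : 0 < d) :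
    Set.ncard {v : ℤ | ∃ a : F, a ≠ 0 ∧ v = W F d a} ≠ 3 := by
  have hW : ∀ a : F, W F d a =
      ∑ x : F, (if Algebra.trace (ZMod 2) F ((1 + a) * x) = 0 then (1 : ℤ) else -1) := by
    intro a
    rw [W]
    apply Finset.sum_congr rfl
    intro x _
    rw [N3_pow F n hF d i hd hd0 x, map_add, N3_trace, ← map_add]
    have e : x + a * x = (1 + a) * x := by ring
    rw [e]
  have hsub : {v : ℤ | ∃ a : F, a ≠ 0 ∧ v = W F d a} ⊆ {0, (Fintype.card F : ℤ)} := by
    rintro v ⟨a, -, hv⟩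
    rw [hv, hW a]
    by_cases h : 1 + a = 0
    · right
      rw [h]
      simp
    · left
      exact N3_sum F (1 + a) h
  have h1 := Set.ncard_le_ncard hsub (Set.toFinite _)
  have h2 : Set.ncard ({0, (Fintype.card F : ℤ)} : Set ℤ) ≤ 2 := by
    have h3 := Set.ncard_insert_le (0 : ℤ) {(Fintype.card F : ℤ)}
    rw [Set.ncard_singleton] at h3
    exact h3
  omega

end Pool.Agent.TV
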