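import Pool.Agent.Lib_helper65.TVC.CL
import Pool.Agent.Lib_helper65.TVC.GC
import Pool.Agent.Lib_helper65.TVC.KATZ
import Pool.Agent.Lib_helper65.TVC.N3
import Pool.Agent.Lib_helper65.TVC.BR

set_option autoImplicit false

namespace Pool.Agent.TV

/-- three-valued decimations satisfy the weight condition -/
theorem V_of_three (F : Type) [Field F] [Fintype F] [Algebra (ZMod 2) F] (n : ℕ) (hn : 0 < n)
    (hF : Fintype.card F = 2 ^ n) (d : ℕ) (hd : Nat.Coprime d (2 ^ n - 1))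
    (h3 : Set.ncard {v : ℤ | ∃ a : F, a ≠ 0 ∧ v = W F d a} = 3) : V n d := by
  intro j z hj hz
  have := stickelberger F n hn hF d hd (n / 2 + 1) (katz F n hn hF d hd h3) j z hj hz
  omega

theorem final_lift (h d : ℕ) (hh : 2 ≤ h) (hc : Nat.Coprime d (2 ^ (6 * h) - 1))
    (h2 : ∃ i : ℕ, d ≡ 2 ^ i [MOD 2 ^ (2 * h) - 1])
    (h3 : (∃ i : ℕ, d ≡ 2 ^ i [MOD 2 ^ (3 * h) - 1]) ∨
      (∃ i : ℕ, d ≡ 2 ^ i * (2 ^ h + 1) [MOD 2 ^ (3 * h) - 1]) ∨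
      (∃ i : ℕ, d * (2 ^ h + 1) ≡ 2 ^ i [MOD 2 ^ (3 * h) - 1]))
    (hv : Set.ncard {v : ℤ | ∃ c : GaloisField 2 (6 * h), c ≠ 0 ∧
        v = ∑ᶠ x ∈ {x : GaloisField 2 (6 * h) | x ≠ 0},
          (-1 : ℤ) ^ (Algebra.trace (ZMod 2) (GaloisField 2 (6 * h)) (c * x - x ^ d)).val} = 3) :
    ∃ i : ℕ, d ≡ 2 ^ i * (2 ^ (2 * h) + 1) [MOD 2 ^ (6 * h) - 1] ∨
      d * (2 ^ (2 * h) + 1) ≡ 2 ^ i [MOD 2 ^ (6 * h) - 1] := by
  have hn : 0 < 6 * h := by omega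
  have hd : 0 < d := by
    rcases Nat.eq_zero_or_pos d with rfl | h'
    · exfalso
      rw [Nat.coprime_zero_left] at hc
      have h2 : 2 ^ 3 ≤ 2 ^ (6 * h) := Nat.pow_le_pow_right (by norm_num) (by omega)
      omega
    · exact h'
  letI : Fintype (GaloisField 2 (6 * h)) := Fintype.ofFinite _
  obtain ⟨hF, hW⟩ := bridge (6 * h) hn d hd hv
  have hV := V_of_three (GaloisField 2 (6 * h)) (6 * h) hn hF d hc hW
  rcases ind_step h d hh hc hV h2 h3 with ⟨i, hi⟩ | ⟨i, hi⟩ | ⟨i, hi⟩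
  · exact absurd hW (not_three_of_pow2 _ (6 * h) hn hF d i hi hd)
  · exact ⟨i, Or.inl hi⟩
  · exact ⟨i, Or.inr hi⟩

theorem final (a d : ℕ) (hc : Nat.Coprime d (2 ^ (3 * 2 ^ a) - 1))
    (h3 : Set.ncard {v : ℤ | ∃ c : GaloisField 2 (3 * 2 ^ a), c ≠ 0 ∧
        v = ∑ᶠ x ∈ {x : GaloisField 2 (3 * 2 ^ a) | x ≠ 0},
          (-1 : ℤ) ^ (Algebra.trace (ZMod 2) (GaloisField 2 (3 * 2 ^ a)) (c * x - x ^ d)).val} = 3) :
    ∃ i : ℕ, d ≡ 2 ^ i * (2 ^ 2 ^ a + 1) [MOD 2 ^ (3 * 2 ^ a) - 1] ∨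
      d * (2 ^ 2 ^ a + 1) ≡ 2 ^ i [MOD 2 ^ (3 * 2 ^ a) - 1] := by
  have hn : 0 < 3 * 2 ^ a := by positivity
  have hd : 0 < d := by
    rcases Nat.eq_zero_or_pos d with rfl | h
    · exfalso
      rw [Nat.coprime_zero_left] at hc
      have h1 : 1 ≤ 2 ^ a := Nat.one_le_two_pow
      have h2 : 2 ^ 3 ≤ 2 ^ (3 * 2 ^ a) := Nat.pow_le_pow_right (by norm_num) (by omega)
      omega
    · exact h
  letI : Fintype (GaloisField 2 (3 * 2 ^ a)) := Fintype.ofFinite _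
  obtain ⟨hF, hW⟩ := bridge (3 * 2 ^ a) hn d hd h3
  have hV := V_of_three (GaloisField 2 (3 * 2 ^ a)) (3 * 2 ^ a) hn hF d hc hW
  rcases classify a d hc hV with ⟨i, hi⟩ | ⟨i, hi⟩ | ⟨i, hi⟩
  · exact absurd hW (not_three_of_pow2 _ (3 * 2 ^ a) hn hF d i hi hd)
  · exact ⟨i, Or.inl hi⟩
  · exact ⟨i, Or.inr hi⟩

end Pool.Agent.TV
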